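import Pool.Agent.N783.PQ.Loc
import Pool.Agent.N783.PQ.Cnt
import Pool.Agent.N874.JM.Stm

/-!
# A positive proportion of all odd hyperelliptic Jacobians over `ℚ`, over a Galois 2-extension `M` of
# `ℚ`: statements of the parts

Project QM (helper874), the version of project PQ (helper783) over a Galois extension `M` of `ℚ` of
2-power degree which has embeddings in `ℚ_2` and in `ℝ`. `GoodF`, `GoodS`, `Fam`, `IsGen`, `Ov`, `LocIm`,
`ov`, `oq`, `dsc`, `rd`, `Cg` are in `N783/PQ/Def.lean`, `Lat.lean`, `Loc.lean`, `Ev`, `Sq1`, `U0` in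
`N874/PP/Def.lean`, `Lies` in `N874/PM/Stm.lean`, `LocF` in `N874/JM/Stm.lean`.
-/

set_option autoImplicit false
set_option linter.all false

open Polynomial IsDedekindDomain NumberField
open Pool.Agent.N783.PQ
open Pool.Agent.N352.PJ (dd)
open Pool.Agent.N874.PP (Ev Sq1 U0 sW)
open Pool.Agent.N874.PM (Lies PLoc)
open Pool.Agent.N874.JM (LocF)
open Pool.Agent.TH115.GD (Pt act rs IsCoc LocTriv Comp Sep)
open scoped Classical IntermediateField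

namespace Pool.Agent.N874.QM

/-! ### The family with conditions at more primes -/

/-- Irreducible polynomials of odd degree with trace zero over a prime field. -/
def S_IRR : Prop := ∀ g p : ℕ, 1 ≤ g → p.Prime → ∃ F : (ZMod p)[X], F.Monic ∧
  F.natDegree = 2 * g + 1 ∧ F.coeff (2 * g) = 0 ∧ Irreducible F

/-- The conditions at the small primes can be satisfied with `f₁` irreducible modulo all of them. -/
def S_GFI : Prop := ∀ g M : ℕ, 1 ≤ g → ∃ (W : ℕ) (f₁ : ℤ[X]), GoodF g W f₁ ∧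
  (∀ p : ℕ, p.Prime → p ≤ M → p ∣ W) ∧ ∀ p : ℕ, p.Prime → p ∣ W → Irreducible (rd p f₁)

/-- Many `f` in the family. -/
def S_FAMI : Prop := ∀ g M : ℕ, 1 ≤ g → ∃ (W : ℕ) (f₁ : ℤ[X]), GoodF g W f₁ ∧
  (∀ p : ℕ, p.Prime → p ≤ M → p ∣ W) ∧ (∀ p : ℕ, p.Prime → p ∣ W → Irreducible (rd p f₁)) ∧
  ∃ c : ℝ, 0 < c ∧ ∀ (S : Finset ℕ) (h : ℕ → ℤ[X]), GoodS g W S h → ∃ B₀ : ℕ, ∀ B ≥ B₀,
    c * (B : ℝ) ^ dd g ≤ ((∏ q ∈ S, q ^ (2 * g) : ℕ) : ℝ) *
      ({f : ℤ[X] | Fam g B W f₁ S h f}.ncard : ℝ)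

/-! ### The relaxed Selmer group over `ℚ` -/

/-- A set `J` of primes for which the relaxed 2-Selmer group over `ℚ` of the twist is zero, in terms of
elements of `L`. -/
def S_CORE : Prop := ∀ g : ℕ, 1 ≤ g → ∃ κ : ℕ, ∀ (B N W : ℕ) (f₁ : ℤ[X]) (S : Finset ℕ)
  (h : ℕ → ℤ[X]) (f : ℤ[X]), GoodF g W f₁ → GoodS g W S h → Fam g B W f₁ S h f →
  2 ^ κ * B ≤ 4 ^ N → 1 ≤ B → ¬ LBad g N κ S h f → Squarefree (dsc g f) ∧
  ∀ (L : Type) [Field L] [NumberField L] (θ : L), IsGen g f θ →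
  ∃ J ⊆ S, ∀ α : L, α ≠ 0 → IsSquare (Algebra.norm ℚ α) →
    (∀ 𝔓 : HeightOneSpectrum (𝓞 L), (∀ q ∈ J, ¬ Ov q 𝔓) → Ev 𝔓 α) →
    (∀ q ∈ J, ∀ 𝔓 : HeightOneSpectrum (𝓞 L), Ov q 𝔓 → 𝔓.valuation L θ = 1 →
      U0 𝔓 ((q : L) * θ) α) →
    (∃ h₀ : ℚ[X], aeval θ h₀ = α ∧ LocIm ℚ_[2] (ov ℚ_[2] f) (oq ℚ_[2] h₀) ∧
      LocIm ℝ (ov ℝ f) (oq ℝ h₀)) → IsSquare α

/-! ### Generators, ramification, splitting -/

/-- `γ` generates `F'` over `F` and is a zero of the monic integral polynomial `m`; `δ` is a combination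
of `m` and its derivative. -/
structure Gen (F : Type) {F' : Type} [Field F] [Field F'] [Algebra F F'] (γ : F') (m : ℤ[X])
    (δ : ℕ) : Prop where
  top : F⟮γ⟯ = ⊤
  monic : m.Monic
  root : aeval γ m = 0
  ne : δ ≠ 0
  comb : ∃ u w : ℤ[X], C (δ : ℤ) = u * m + w * derivative m

/-- The polynomial `m` splits into linear factors modulo `q`. -/
def SplitMod (q : ℕ) (m : ℤ[X]) : Prop :=
  ∃ (l : Multiset ℤ) (h : ℤ[X]), m = (l.map fun c => X - C c).prod + C (q : ℤ) * h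

/-- Existence of a generator. -/
def S_GEN : Prop := ∀ (M : Type) [Field M] [NumberField M],
  ∃ (γ : M) (m : ℤ[X]) (δ : ℕ), Gen ℚ γ m δ ∧ m.natDegree = Module.finrank ℚ M

/-- Existence of primes modulo which `m` splits. -/
def S_SPL : Prop := ∀ (M : Type) [Field M] [NumberField M] [IsGalois ℚ M] (γ : M) (m : ℤ[X])
  (δ : ℕ), Gen ℚ γ m δ → m.natDegree = Module.finrank ℚ M → ∀ W r : ℕ,
  ∃ S : Finset ℕ, S.card = r ∧ ∀ q ∈ S, q.Prime ∧ W < q ∧ q % 8 = 1 ∧ SplitMod q m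

/-- The extension is unramified at the primes which do not divide `δ`. -/
def S_UR : Prop := ∀ (F F' : Type) [Field F] [NumberField F] [Field F'] [NumberField F']
  [Algebra F F'] (γ : F') (m : ℤ[X]) (δ : ℕ), Gen F γ m δ →
  (∀ 𝔓' : HeightOneSpectrum (𝓞 F'), ¬ Ov δ 𝔓' → ∃ 𝔓 : HeightOneSpectrum (𝓞 F),
    ∀ x : F, 𝔓'.valuation F' (algebraMap F F' x) = 𝔓.valuation F x) ∧
  (∀ 𝔓 : HeightOneSpectrum (𝓞 F), ¬ Ov δ 𝔓 → ∃ 𝔓' : HeightOneSpectrum (𝓞 F'),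
    ∀ x : F, 𝔓'.valuation F' (algebraMap F F' x) = 𝔓.valuation F x)

/-- Density at the primes `q` modulo which `m` splits. -/
def S_SPD : Prop := ∀ (F F' : Type) [Field F] [NumberField F] [Field F'] [NumberField F']
  [Algebra F F'] (γ : F') (m : ℤ[X]) (δ : ℕ), Gen F γ m δ → ∀ q : ℕ, q.Prime → SplitMod q m →
  ∀ 𝔓' : HeightOneSpectrum (𝓞 F'), Ov q 𝔓' → ¬ Ov δ 𝔓' → ∀ s : F', s ≠ 0 →
    ∃ s₀ : F, 𝔓'.valuation F' (s - algebraMap F F' s₀) < 𝔓'.valuation F' s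

/-- The automorphisms permute the primes. -/
def S_SIG : Prop := ∀ (F' : Type) [Field F'] [NumberField F'] (σ : F' ≃ₐ[ℚ] F')
  (𝔓 : HeightOneSpectrum (𝓞 F')), ∃ 𝔓' : HeightOneSpectrum (𝓞 F'),
    (∀ x : F', 𝔓'.valuation F' x = 𝔓.valuation F' (σ x)) ∧ ∀ p : ℕ, Ov p 𝔓' ↔ Ov p 𝔓

/-- Every prime lies over a prime. -/
def S_LIE : Prop := ∀ (F F' : Type) [Field F] [NumberField F] [Field F'] [NumberField F']
  [Algebra F F'] (𝔓' : HeightOneSpectrum (𝓞 F')), ∃ 𝔓 : HeightOneSpectrum (𝓞 F),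
    Lies (M := F) (Ω := F') 𝔓 𝔓' ∧ ∀ p : ℕ, Ov p 𝔓 ↔ Ov p 𝔓'

/-- The parity at the prime over `p` if `f` is irreducible modulo `p`. -/
def S_PI : Prop := ∀ (g : ℕ) (L : Type) [Field L] [NumberField L] (f : ℤ[X]) (θ : L),
  IsGen g f θ → ∀ p : ℕ, p.Prime → Irreducible (rd p f) → ∀ x : L, x ≠ 0 →
    IsSquare (Algebra.norm ℚ x) → ∀ 𝔓 : HeightOneSpectrum (𝓞 L), Ov p 𝔓 → Ev 𝔓 x

/-- At most one prime over `p` divides `f'(θ)`, and it is of degree one. -/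
def S_RAM : Prop := ∀ (g : ℕ) (L : Type) [Field L] [NumberField L] (f : ℤ[X]) (θ : L),
  1 ≤ g → IsGen g f θ → Squarefree (dsc g f) → ∀ p : ℕ, p.Prime →
  ∀ 𝔓₀ : HeightOneSpectrum (𝓞 L), Ov p 𝔓₀ →
    𝔓₀.valuation L (aeval θ (derivative f)) < 1 →
    (∃ c : ℤ, 𝔓₀.valuation L (θ - (c : L)) < 1) ∧
    ∀ 𝔓 : HeightOneSpectrum (𝓞 L), Ov p 𝔓 → 𝔓 ≠ 𝔓₀ →
      𝔓.valuation L (aeval θ (derivative f)) = 1

/-! ### Completions -/

/-- An embedding in `ℚ_p` extends to a completion. -/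
def S_EMB : Prop := ∀ (M : Type) [Field M] [NumberField M] (p : ℕ) [Fact p.Prime]
  (σ : M →+* ℚ_[p]), ∃ (w : HeightOneSpectrum (𝓞 M)) (j : w.adicCompletion M →+* ℚ_[p]),
    Ov p w ∧ ∀ x : M, j (algebraMap M (w.adicCompletion M) x) = σ x

/-! ### The 2-Selmer group over `M` -/

/-- The 2-Selmer group over `M` of the Jacobian of `y ^ 2 = f(x)` is zero. -/
def SelM (M : Type) [Field M] [NumberField M] (f : M[X]) : Prop :=
  ∀ h : M[X], IsCoprime h f → IsSquare (Algebra.norm M (AdjoinRoot.mk f h)) →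
    (∀ w : HeightOneSpectrum (𝓞 M), LocF (w.adicCompletion M) f h) →
    (∀ ρ : M →+* ℝ, LocIm ℝ (f.map ρ) (h.map ρ)) → ∃ s : M[X], f ∣ h - s ^ 2

/-! ### Galois cohomology of elliptic curves over `M` -/

/-- The local condition over any extension field with a point whose order does not divide four. -/
def S_GLF : Prop := ∀ (M F : Type) [Field M] [Field F] [Algebra M F] (A B : M), (6 : M) ≠ 0 →
  4 * A ^ 3 + 27 * B ^ 2 ≠ 0 →
  ∀ f : (Sep M ≃ₐ[M] Sep M) → Pt (sW A B) (Sep M), IsCoc (sW A B) f → (∀ σ, (2 : ℕ) • f σ = 0) →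
  ∀ (β : Sep M → Sep M) (h : M[X]), Pool.Agent.N874.PP.IsBeta A B f β →
    (∀ t : Sep M, Pool.Agent.N874.PP.Rt A B t → aeval t h = β t ^ 2) →
    (∃ P : Pt (sW A B) F, (2 : ℕ) • (2 : ℕ) • P ≠ 0) →
    LocTriv (sW A B) F (Sep F) f → PLoc F A B h

/-- Points whose order does not divide four over the completions of a number field. -/
def S_FARC : Prop := ∀ (M : Type) [Field M] [NumberField M] (A B : M),
  4 * A ^ 3 + 27 * B ^ 2 ≠ 0 → ∀ w : HeightOneSpectrum (𝓞 M),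
  ∃ P : Pt (sW A B) (Comp (𝓞 M) M w), (2 : ℕ) • (2 : ℕ) • P ≠ 0

/-- Points whose order does not divide four over `ℝ`. -/
def S_FARR : Prop := ∀ (M : Type) [Field M] [Algebra M ℝ] (A B : M),
  4 * A ^ 3 + 27 * B ^ 2 ≠ 0 → ∃ P : Pt (sW A B) ℝ, (2 : ℕ) • (2 : ℕ) • P ≠ 0

/-- The cocycle is trivial at all places of `M`. -/
structure IsLoc {M : Type} [Field M] [NumberField M] (W : WeierstrassCurve M)
    (f : (Sep M ≃ₐ[M] Sep M) → Pt W (Sep M)) : Prop where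
  fin : ∀ w : HeightOneSpectrum (𝓞 M), LocTriv W (Comp (𝓞 M) M w) (Sep (Comp (𝓞 M) M w)) f
  real : ∀ ρ : M →+* ℝ, letI := ρ.toAlgebra; LocTriv W ℝ (Sep ℝ) f

/-- The 2-Selmer group is zero. -/
def SelC {M : Type} [Field M] [NumberField M] (W : WeierstrassCurve M) : Prop :=
  ∀ f : (Sep M ≃ₐ[M] Sep M) → Pt W (Sep M), IsCoc W f → (∀ σ, (2 : ℕ) • f σ = 0) →
    IsLoc W f → ∃ T : Pt W (Sep M), (2 : ℕ) • T = 0 ∧ ∀ σ, f σ = act W (rs M σ) T - T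

/-- Every class of 2-power order in the Tate-Shafarevich group is zero. -/
def ShaC {M : Type} [Field M] [NumberField M] (W : WeierstrassCurve M) : Prop :=
  ∀ f : (Sep M ≃ₐ[M] Sep M) → Pt W (Sep M), IsCoc W f → IsLoc W f →
    (∃ (n : ℕ) (Q : Pt W (Sep M)), ∀ σ, 2 ^ n • f σ = act W (rs M σ) Q - Q) →
    ∃ Q : Pt W (Sep M), ∀ σ, f σ = act W (rs M σ) Q - Q

/-- Consequences of `SelC`. -/
def S_GFC : Prop := ∀ (M : Type) [Field M] [NumberField M] (A B : M),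
  4 * A ^ 3 + 27 * B ^ 2 ≠ 0 → SelC (sW A B) →
  (∀ P : Pt (sW A B) M, ∃ Q : Pt (sW A B) M, P = (2 : ℕ) • Q) ∧ ShaC (sW A B)

/-- From the polynomial form of the Selmer group to cocycles, for elliptic curves. -/
def S_SELC : Prop := ∀ (M : Type) [Field M] [NumberField M] (A B : M),
  4 * A ^ 3 + 27 * B ^ 2 ≠ 0 → Irreducible (X ^ 3 + C A * X + C B : M[X]) →
  SelM M (X ^ 3 + C A * X + C B) → SelC (sW A B)

/-- Finiteness from divisibility by two. -/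
def S_FINC : Prop := ∀ (M : Type) [Field M] [NumberField M] (A B : M),
  4 * A ^ 3 + 27 * B ^ 2 ≠ 0 →
  (∀ P : Pt (sW A B) M, ∃ Q : Pt (sW A B) M, P = (2 : ℕ) • Q) →
  Finite (Pt (sW A B) M) ∧ Odd (Nat.card (Pt (sW A B) M))

end Pool.Agent.N874.QM
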