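import Pool.Agent.N352.JB.All
import Pool.Agent.N874.Jac.Def
import Pool.Agent.N874.QM.Stm
import Pool.Agent.N874.JM.Fld

/-!
# From the explicit 2-Selmer group over `M` to the group of points and the Tate-Shafarevich group

Projects QM and JB (helper874, helper352).
-/

set_option autoImplicit false
set_option linter.all false

open Polynomial IsDedekindDomain NumberField
open Pool.Agent.N783.PQ
open scoped Classical

namespace Pool.Agent.N874.QM

open Pool.Agent.Y713.Jac

/-- The completions of a number field at the finite places and the real places. -/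
inductive PlM (M : Type) [Field M] [NumberField M] : ∀ (E : Type) [Field E] [Algebra M E], Prop
  | fin (v : HeightOneSpectrum (𝓞 M)) : PlM M (v.adicCompletion M)
  | real (ρ : M →+* ℝ) : @PlM M _ _ ℝ _ ρ.toAlgebra

theorem genuine (M : Type) [Field M] [NumberField M] {n : ℕ} (hM : Module.finrank ℚ M = 2 ^ n)
    {f : ℤ[X]} (hm : f.Monic) (ho : Odd f.natDegree) (hi : Irreducible (ov ℚ f))
    (h : SelM M (f.map (algebraMap ℤ M))) :
    Pool.Agent.N874.Jac.UniquelyTwoDivisible (f.map (algebraMap ℤ M)) ∧
      Pool.Agent.N874.Jac.ShaTwoTrivialReal (f.map (algebraMap ℤ M)) (𝓞 M) := by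
  have hmap : f.map (algebraMap ℤ M) = (ov ℚ f).map (algebraMap ℚ M) := by
    rw [ov, Polynomial.map_map]
    congr 1
    exact RingHom.ext_int _ _
  have hmK : (ov ℚ f).Monic := hm.map _
  have hdK : Odd (ov ℚ f).natDegree := by
    rw [ov, hm.natDegree_map]
    exact ho
  have hF : (f.map (algebraMap ℤ M)).Monic := hm.map _
  have hd : Odd (f.map (algebraMap ℤ M)).natDegree := by
    rw [hm.natDegree_map]
    exact ho
  have hiM : Irreducible (f.map (algebraMap ℤ M)) := by
    rw [hmap]
    exact Pool.Agent.N874.JM.irr_up hM hi hmK hdK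
  have hsM : (f.map (algebraMap ℤ M)).Separable := by
    rw [hmap]
    exact hi.separable.map
  have h2M : (2 : M) ≠ 0 := two_ne_zero
  have ht : Pool.Agent.N352.JB.SelTriv (PlM M) (f.map (algebraMap ℤ M)) := by
    intro a h1 h2 h3
    refine h a h1 h2 (fun v => ?_) fun ρ => ?_
    · exact h3 (v.adicCompletion M) (PlM.fin v)
    · exact @h3 ℝ _ ρ.toAlgebra (PlM.real ρ)
  refine ⟨Pool.Agent.N874.Jac.div_of _ (Pool.Agent.N352.JB.ptsT M _ h2M hF hiM hsM hd _ ht),
    fun c m hc hl hr hb => ?_⟩
  refine Pool.Agent.N352.JB.shaT M _ h2M hF hiM hsM hd _ ht c m hc (fun E _ _ hE => ?_) hb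
  cases hE with
  | fin v => exact hl v
  | real ρ => exact hr ρ

end Pool.Agent.N874.QM
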