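import Pool.Agent.N874.QM.Top2
import Pool.Agent.N874.PM.Big5
import Pool.Agent.N874.JM.Fld

/-!
# The 2-Selmer group over the extension

Project QM (helper874).
-/

set_option autoImplicit false
set_option linter.all false

open Polynomial IsDedekindDomain NumberField
open Pool.Agent.N783.PQ
open Pool.Agent.N874.PP (Ev Sq1 U0)
open Pool.Agent.N874.PM (Lies ev_down sq_down ev_sq ev_mul top_up)
open Pool.Agent.N874.JM (LocF)
open Pool.Agent.N891.PQ (exists_below not_ev_exp locIm_one ov_scale sq_two)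
open scoped Classical IntermediateField

namespace Pool.Agent.N874.QM

/-- All the parts which are used in the theorem on the Selmer group. -/
structure Parts : Prop where
  cls : S_CLS
  exq : S_EXQ
  csq : S_CSQ
  par : S_PAR
  sqt : S_SQT
  core : S_CORE
  ur : S_UR
  spd : S_SPD
  sig : S_SIG
  lie : S_LIE
  pi : S_PI
  ram : S_RAM
  emb : S_EMB
  tow : Pool.Agent.N874.JM.S_TOW
  loc1 : Pool.Agent.N874.JM.S_LOC1
  loc2 : Pool.Agent.N874.JM.S_LOC2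

section abs

variable {L M Ω : Type} [Field L] [NumberField L] [Field M] [NumberField M]
  [Field Ω] [NumberField Ω] [Algebra L Ω] [Algebra M Ω] [IsGalois ℚ M]

theorem selM_abs (H : Parts) {g W : ℕ} {f : ℤ[X]} {θ : L} {S J T : Finset ℕ} {s : ℕ → ℤ[X]}
    (hg : 1 ≤ g) (hc : IsGen g f θ) (hsq : Squarefree (dsc g f)) (hS : GoodS g W S s)
    (hcon : ∀ q ∈ S, Cg q f (X * s q)) {γ : M} {m : ℤ[X]} {δ : ℕ} (hG : Gen ℚ γ m δ)
    (hsp : ∀ q ∈ S, SplitMod q m)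
    (hT : ∀ p ∈ T, p.Prime) (h2T : 2 ∈ T) (hTi : ∀ p ∈ T, Irreducible (rd p f))
    (hδ : ∀ p : ℕ, p.Prime → p ∣ δ → p ∈ T) (hdis : Disjoint S T) (hJ : J ⊆ S)
    (hθ : M⟮algebraMap L Ω θ⟯ = ⊤)
    (hmin : minpoly M (algebraMap L Ω θ) = f.map (algebraMap ℤ M))
    (τ₂ : M →+* ℚ_[2]) (ρ₀ : M →+* ℝ)
    {n : ℕ} (hM : Module.finrank ℚ M = 2 ^ n) (hΩ : Module.finrank M Ω = 2 * g + 1)
    (hsel : ∀ α : L, α ≠ 0 → IsSquare (Algebra.norm ℚ α) →
      (∀ 𝔓 : HeightOneSpectrum (𝓞 L), (∀ q ∈ J, ¬ Ov q 𝔓) → Ev 𝔓 α) →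
      (∀ q ∈ J, ∀ 𝔓 : HeightOneSpectrum (𝓞 L), Ov q 𝔓 → 𝔓.valuation L θ = 1 →
        U0 𝔓 ((q : L) * θ) α) →
      (∃ h₀ : ℚ[X], aeval θ h₀ = α ∧ LocIm ℚ_[2] (ov ℚ_[2] f) (oq ℚ_[2] h₀) ∧
        LocIm ℝ (ov ℝ f) (oq ℝ h₀)) → IsSquare α)
    (h : M[X]) (hne : aeval (((∏ q ∈ J, q : ℕ) : Ω) * algebraMap L Ω θ) h ≠ 0)
    (hN : IsSquare (Algebra.norm M (aeval (((∏ q ∈ J, q : ℕ) : Ω) * algebraMap L Ω θ) h)))
    (hloc : ∀ w : HeightOneSpectrum (𝓞 M), LocF (w.adicCompletion M)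
      ((f.scaleRoots ((∏ q ∈ J, q : ℕ) : ℤ)).map (algebraMap ℤ M)) h)
    (hr : ∀ ρ : M →+* ℝ, LocIm ℝ
      (((f.scaleRoots ((∏ q ∈ J, q : ℕ) : ℤ)).map (algebraMap ℤ M)).map ρ) (h.map ρ)) :
    IsSquare (aeval (((∏ q ∈ J, q : ℕ) : Ω) * algebraMap L Ω θ) h) := by
  have hS' : ∀ q ∈ S, q.Prime := fun q hq => (hS q hq).1
  have hD8 : (∏ q ∈ J, q) % 8 = 1 := by
    have : ∀ J' : Finset ℕ, J' ⊆ S → (∏ q ∈ J', q) % 8 = 1 := by
      intro J'
      induction J' using Finset.induction_on with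
      | empty => intro _; simp
      | insert a t ha ih =>
        intro hsub
        rw [Finset.prod_insert ha, Nat.mul_mod, ih ((Finset.subset_insert _ _).trans hsub),
          (hS a (hsub (Finset.mem_insert_self _ _))).2.2.2.1]
    exact this J hJ
  have hG' : Gen L (algebraMap M Ω γ) m δ := by
    refine ⟨top_up (K := ℚ) hG.top hθ, hG.monic, ?_, hG.ne, hG.comb⟩
    rw [aeval_algebraMap_apply, hG.root, map_zero]
  have hcnd := cnd_top H.exq H.csq H.ur H.spd H.lie H.loc1 H.loc2 hg hc hsq hS hcon hG hG'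
    hsp hT h2T hδ hdis hJ hloc hne
  have harc := arc_top (θ := algebraMap L Ω θ) H.emb H.sqt hc.mon hc.deg hD8 hloc hr
  have hgen : ∀ y : Ω, ∃ a : M[X], aeval (algebraMap L Ω θ) a = y := by
    intro y
    have h1 := IntermediateField.adjoin_simple_toSubalgebra_of_isAlgebraic
      (Algebra.IsAlgebraic.isAlgebraic (R := M) (algebraMap L Ω θ))
    rw [hθ, IntermediateField.top_toSubalgebra, Algebra.adjoin_singleton_eq_range_aeval] at h1
    have h2 : y ∈ (aeval (R := M) (algebraMap L Ω θ)).range := by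
      rw [← h1]
      exact Algebra.mem_top
    exact h2
  refine H.tow n ℚ L M Ω two_ne_zero hM (by rw [hc.rank]; exact odd_two_mul_add_one g)
    (by rw [hΩ, hc.rank])
    (fun x => Cnd J T (algebraMap L Ω θ) (algebraMap L Ω (aeval θ (derivative f))) x ∧
      Arc M f (algebraMap L Ω θ) x) (fun x hx => ⟨cnd_sq hx, arc_sq hgen x⟩)
    (fun x y hx hy h h' => ⟨cnd_mul H.cls (fun q hq => ⟨hS' q (hJ hq), ?_⟩)
      (fun q hq 𝔓 h1 h3 => ?_) hx hy h.1 h'.1, arc_mul h.2 h'.2⟩)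
    (fun σ x h => ⟨cnd_sig H.sig rfl rfl σ h.1, arc_sig rfl σ h.2⟩)
    (fun x hx hC hN => ?_) _ hne ⟨hcnd, harc⟩ hN
  · have := (hS q (hJ hq)).2.2.2.1
    omega
  · have h4 := (q_top H.exq H.csq H.ur hg hc hsq hS hG' (hJ hq)
      (hcon q (hJ hq)) 𝔓 h1 (not_ov_delta' hG.ne hδ hS' hT hdis (hJ hq) h1) h3).1
    apply not_ev_exp
    rw [map_mul, h4, h3, mul_one]
  · have hint : IsIntegral ℤ (aeval θ (derivative f)) := by
      have hθi : IsIntegral ℤ θ := ⟨f, hc.mon, by rw [← aeval_def]; exact hc.root⟩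
      exact IsIntegral.of_mem_of_fg _ hθi.fg_adjoin_singleton _
        (by
          rw [Algebra.adjoin_singleton_eq_range_aeval]
          exact ⟨derivative f, rfl⟩)
    have e : (aeval θ (derivative f)) = algebraMap (𝓞 L) L ⟨_, hint⟩ := rfl
    have hη : ∀ 𝔮 : HeightOneSpectrum (𝓞 L), 𝔮.valuation L (aeval θ (derivative f)) ≤ 1 := by
      intro 𝔮
      rw [e]
      exact 𝔮.valuation_le_one _
    obtain ⟨b1, b2⟩ := base_sq (T := T) (δ := δ) (fun q hq => hS' q (hJ hq)) hT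
      (H.ur L Ω _ m δ hG').2
      (fun q hq => H.spd L Ω _ m δ hG' q (hS' q (hJ hq)) (hsp q (hJ hq)))
      hη
      (fun p hp => H.pi g L f θ hc p (hT p hp) (hTi p hp))
      (H.ram g L f θ hg hc hsq)
      (H.par g L f θ hc hsq)
      (fun 𝔓 h => by
        obtain ⟨p, hp, hpd, hp'⟩ := ov_delta hG.ne h
        exact ⟨p, hδ p hp hpd, hp'⟩)
      (fun q hq 𝔓 h => not_ov_delta' hG.ne hδ hS' hT hdis (hJ hq) h) hx hN hC.1
    exact hsel x hx hN b1 b2 (arc_down hc hmin τ₂ ρ₀ hC.2)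

end abs

end Pool.Agent.N874.QM
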