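import Pool.Agent.N874.QM.Stm
import Pool.Agent.N874.PM.Big3
import Pool.Agent.N891.PQ.TwA

/-!
# The conditions over the extension

Project QM (helper874).
-/

set_option autoImplicit false
set_option linter.all false

open Polynomial IsDedekindDomain NumberField
open Pool.Agent.N783.PQ
open Pool.Agent.N874.PP (Ev Sq1 U0)
open Pool.Agent.N874.PM (Lies ev_down sq_down ev_sq ev_mul)
open Pool.Agent.N874.JM (LocF)
open Pool.Agent.N891.PQ (exists_below not_ev_exp locIm_one)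
open scoped Classical IntermediateField

namespace Pool.Agent.N874.QM

section prel

variable {L Ω : Type} [Field L] [NumberField L] [Field Ω] [NumberField Ω] [Algebra L Ω]

theorem ov_val (p : ℕ) (𝔓 : HeightOneSpectrum (𝓞 L)) :
    Ov p 𝔓 ↔ 𝔓.valuation L (p : L) < 1 := by
  rw [← map_natCast (algebraMap (𝓞 L) L) p, HeightOneSpectrum.valuation_lt_one_iff_mem]
  rfl

theorem val_le (p : ℕ) (𝔓 : HeightOneSpectrum (𝓞 L)) : 𝔓.valuation L (p : L) ≤ 1 := by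
  rw [← map_natCast (algebraMap (𝓞 L) L) p]
  exact 𝔓.valuation_le_one _

theorem val_le_int (p : ℤ) (𝔓 : HeightOneSpectrum (𝓞 L)) : 𝔓.valuation L (p : L) ≤ 1 := by
  rw [← map_intCast (algebraMap (𝓞 L) L) p]
  exact 𝔓.valuation_le_one _

theorem val_eq_of (p : ℕ) (𝔓 : HeightOneSpectrum (𝓞 L)) (h : ¬ Ov p 𝔓) :
    𝔓.valuation L (p : L) = 1 := by
  refine le_antisymm (val_le p 𝔓) ?_
  rw [← not_lt, ← ov_val]
  exact h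

theorem ov_down {𝔓 : HeightOneSpectrum (𝓞 L)} {𝔓' : HeightOneSpectrum (𝓞 Ω)}
    (hv : ∀ x : L, 𝔓'.valuation Ω (algebraMap L Ω x) = 𝔓.valuation L x) (p : ℕ) :
    Ov p 𝔓' ↔ Ov p 𝔓 := by
  rw [ov_val, ov_val, ← hv, map_natCast (algebraMap L Ω)]

theorem below_unique {𝔓 : HeightOneSpectrum (𝓞 L)} {p q : ℕ} (hp : p.Prime) (hq : q.Prime)
    (h : Ov p 𝔓) (h' : Ov q 𝔓) : p = q := by
  by_contra hne
  have hco : IsCoprime (p : ℤ) (q : ℤ) := by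
    rw [Nat.isCoprime_iff_coprime]
    exact (Nat.coprime_primes hp hq).2 hne
  obtain ⟨u, v, huv⟩ := hco
  apply 𝔓.isPrime.ne_top
  rw [Ideal.eq_top_iff_one]
  have h1 : (u : 𝓞 L) * (p : 𝓞 L) + (v : 𝓞 L) * (q : 𝓞 L) ∈ 𝔓.asIdeal :=
    Ideal.add_mem _ (Ideal.mul_mem_left _ _ h) (Ideal.mul_mem_left _ _ h')
  have h2 : (u : 𝓞 L) * (p : 𝓞 L) + (v : 𝓞 L) * (q : 𝓞 L) = 1 := by
    have := congrArg (fun z : ℤ => (z : 𝓞 L)) huv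
    push_cast at this
    exact this
  rwa [h2] at h1

theorem ov_mul {𝔓 : HeightOneSpectrum (𝓞 L)} {a b : ℕ} (h : Ov (a * b) 𝔓) : Ov a 𝔓 ∨ Ov b 𝔓 := by
  unfold Ov at h ⊢
  push_cast at h
  exact 𝔓.isPrime.mem_or_mem h

theorem ov_prod {𝔓 : HeightOneSpectrum (𝓞 L)} {J : Finset ℕ} (h : Ov (∏ q ∈ J, q) 𝔓) :
    ∃ q ∈ J, Ov q 𝔓 := by
  unfold Ov at h
  push_cast at h
  haveI := 𝔓.isPrime
  obtain ⟨q, hq, h1⟩ := (Ideal.IsPrime.prod_mem_iff (s := J) (x := fun q : ℕ => (q : 𝓞 L))).1 h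
  exact ⟨q, hq, h1⟩

/-- A prime over `δ` is over a prime divisor of `δ`. -/
theorem ov_delta {𝔓 : HeightOneSpectrum (𝓞 L)} {δ : ℕ} (hδ : δ ≠ 0) (h : Ov δ 𝔓) :
    ∃ p : ℕ, p.Prime ∧ p ∣ δ ∧ Ov p 𝔓 := by
  obtain ⟨p, hp, hp𝔓⟩ := exists_below 𝔓
  refine ⟨p, hp, ?_, hp𝔓⟩
  by_contra hnd
  have hco : IsCoprime (p : ℤ) (δ : ℤ) := by
    rw [Nat.isCoprime_iff_coprime]
    exact (Nat.Prime.coprime_iff_not_dvd hp).2 hnd
  obtain ⟨u, v, huv⟩ := hco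
  apply 𝔓.isPrime.ne_top
  rw [Ideal.eq_top_iff_one]
  have h1 : (u : 𝓞 L) * (p : 𝓞 L) + (v : 𝓞 L) * (δ : 𝓞 L) ∈ 𝔓.asIdeal :=
    Ideal.add_mem _ (Ideal.mul_mem_left _ _ hp𝔓) (Ideal.mul_mem_left _ _ h)
  have h2 : (u : 𝓞 L) * (p : 𝓞 L) + (v : 𝓞 L) * (δ : 𝓞 L) = 1 := by
    have := congrArg (fun z : ℤ => (z : 𝓞 L)) huv
    push_cast at this
    exact this
  rwa [h2] at h1

end prel

section cond

variable {Ω : Type} [Field Ω] [NumberField Ω]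

/-- The conditions at the odd primes. -/
structure Cnd (J T : Finset ℕ) (θ η x : Ω) : Prop where
  ev : ∀ 𝔓 : HeightOneSpectrum (𝓞 Ω), (∀ p ∈ T, ¬ Ov p 𝔓) → (∀ q ∈ J, ¬ Ov q 𝔓) →
    𝔓.valuation Ω η = 1 → Ev 𝔓 x
  u0 : ∀ q ∈ J, ∀ 𝔓 : HeightOneSpectrum (𝓞 Ω), Ov q 𝔓 → 𝔓.valuation Ω θ = 1 →
    U0 𝔓 ((q : Ω) * θ) x

variable {J T : Finset ℕ} {θ η : Ω}

theorem cnd_sq {x : Ω} (hx : x ≠ 0) : Cnd J T θ η (x ^ 2) where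
  ev 𝔓 _ _ _ := ev_sq 𝔓 x
  u0 q _ 𝔓 _ _ := by
    refine ⟨fun _ => ⟨x, ?_⟩, fun h => absurd (ev_sq 𝔓 x) h⟩
    rw [sub_self, map_zero, zero_lt_iff]
    exact (Valuation.ne_zero_iff _).2 (pow_ne_zero _ hx)

theorem cnd_mul (hCLS : S_CLS) (hJ : ∀ q ∈ J, q.Prime ∧ q ≠ 2)
    (hϖ : ∀ q ∈ J, ∀ 𝔓 : HeightOneSpectrum (𝓞 Ω), Ov q 𝔓 → 𝔓.valuation Ω θ = 1 →
      ¬ Ev 𝔓 ((q : Ω) * θ)) {x y : Ω} (hx : x ≠ 0) (hy : y ≠ 0)
    (h : Cnd J T θ η x) (h' : Cnd J T θ η y) : Cnd J T θ η (x * y) where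
  ev 𝔓 h1 h2 h3 := ev_mul (h.ev 𝔓 h1 h2 h3) (h'.ev 𝔓 h1 h2 h3)
  u0 q hq 𝔓 h1 h3 := by
    have h4 := hϖ q hq 𝔓 h1 h3
    have h5 : (q : Ω) * θ ≠ 0 := by
      intro h0
      apply h4
      rw [h0]
      exact ⟨0, by simp⟩
    exact ((hCLS Ω q 𝔓 _ (hJ q hq).1 (hJ q hq).2 h1 h5 h4 x y hx hy).2).2
      ⟨fun _ => h'.u0 q hq 𝔓 h1 h3, fun _ => h.u0 q hq 𝔓 h1 h3⟩

theorem cnd_sig (hSIG : S_SIG) {L : Type} [Field L] [NumberField L] [Algebra L Ω]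
    {θ₀ η₀ : L} (hθ : θ = algebraMap L Ω θ₀) (hη : η = algebraMap L Ω η₀)
    (σ : Ω ≃ₐ[L] Ω) {x : Ω} (h : Cnd J T θ η x) : Cnd J T θ η (σ x) := by
  have hf : ∀ y : L, σ (algebraMap L Ω y) = algebraMap L Ω y := fun y => σ.commutes y
  have key := hSIG Ω (σ.restrictScalars ℚ)
  have hev : ∀ (𝔓 𝔓' : HeightOneSpectrum (𝓞 Ω)),
      (∀ y : Ω, 𝔓'.valuation Ω y = 𝔓.valuation Ω (σ y)) →
      ∀ y : Ω, Ev 𝔓' y ↔ Ev 𝔓 (σ y) := by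
    intro 𝔓 𝔓' hv y
    constructor
    · rintro ⟨z, hz⟩
      exact ⟨σ z, by rw [← hv, ← hv, hz]⟩
    · rintro ⟨z, hz⟩
      refine ⟨σ.symm z, ?_⟩
      rw [hv, hv, σ.apply_symm_apply, hz]
  have hsq : ∀ (𝔓 𝔓' : HeightOneSpectrum (𝓞 Ω)),
      (∀ y : Ω, 𝔓'.valuation Ω y = 𝔓.valuation Ω (σ y)) →
      ∀ y : Ω, Sq1 𝔓' y → Sq1 𝔓 (σ y) := by
    rintro 𝔓 𝔓' hv y ⟨z, hz⟩
    refine ⟨σ z, ?_⟩
    rw [hv, hv, map_sub, map_pow] at hz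
    exact hz
  refine ⟨fun 𝔓 h1 h2 h3 => ?_, fun q hq 𝔓 h1 h2 => ?_⟩
  · obtain ⟨𝔓', hv, hO⟩ := key 𝔓
    have hv' : ∀ y : Ω, 𝔓'.valuation Ω y = 𝔓.valuation Ω (σ y) := hv
    exact (hev 𝔓 𝔓' hv' x).1 (h.ev 𝔓' (fun p hp hc => h1 p hp ((hO p).1 hc))
      (fun q hq hc => h2 q hq ((hO q).1 hc)) (by rw [hv', hη, hf, ← hη]; exact h3))
  · obtain ⟨𝔓', hv, hO⟩ := key 𝔓
    have hv' : ∀ y : Ω, 𝔓'.valuation Ω y = 𝔓.valuation Ω (σ y) := hv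
    have h3 := h.u0 q hq 𝔓' ((hO q).2 h1) (by rw [hv', hθ, hf, ← hθ]; exact h2)
    refine ⟨fun h4 => hsq 𝔓 𝔓' hv' x (h3.1 ((hev 𝔓 𝔓' hv' x).2 h4)), fun h4 => ?_⟩
    have h5 := hsq 𝔓 𝔓' hv' _ (h3.2 fun h6 => h4 ((hev 𝔓 𝔓' hv' x).1 h6))
    rw [map_mul, map_mul, map_natCast, hθ, hf, ← hθ] at h5
    exact h5

end cond

/-! ### The conditions at `2` and at infinity -/

theorem locIm_congr {F : Type} [Field F] {f h h' : F[X]} (hd : f ∣ h - h') (H : LocIm F f h) :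
    LocIm F f h' := by
  obtain ⟨l, s, h1, h2⟩ := H
  refine ⟨l, s, h1, ?_⟩
  have e : h' * (l.map fun p => (-1) ^ p.1.natDegree * p.1).prod - s ^ 2 =
      (h * (l.map fun p => (-1) ^ p.1.natDegree * p.1).prod - s ^ 2) -
      (h - h') * (l.map fun p => (-1) ^ p.1.natDegree * p.1).prod := by ring
  rw [e]
  exact dvd_sub h2 (hd.mul_right _)

theorem locIm_sq {F : Type} [Field F] (f h : F[X]) : LocIm F f (h ^ 2) :=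
  ⟨[], h, by simp, by simp⟩

theorem locIm_map {F F' : Type} [Field F] [Field F'] (j : F →+* F') {f h : F[X]}
    (H : LocIm F f h) : LocIm F' (f.map j) (h.map j) := by
  obtain ⟨l, s, h1, h2⟩ := H
  refine ⟨l.map fun p => (p.1.map j, p.2.map j), s.map j, ?_, ?_⟩
  · intro p hp
    rw [List.mem_map] at hp
    obtain ⟨p', hp', rfl⟩ := hp
    obtain ⟨a1, a2, a3⟩ := h1 p' hp'
    refine ⟨a1.map _, a2.map (mapRingHom j), ?_⟩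
    have := Polynomial.map_dvd j a3
    rwa [Polynomial.map_sub, Polynomial.map_pow] at this
  · have e : ((l.map fun p => (p.1.map j, p.2.map j)).map fun p : F'[X] × F'[X] =>
        (-1) ^ p.1.natDegree * p.1).prod =
        ((l.map fun p : F[X] × F[X] => (-1) ^ p.1.natDegree * p.1).prod).map j := by
      rw [List.map_map, ← coe_mapRingHom, map_list_prod, List.map_map]
      congr 1
      refine List.map_congr_left fun p hp => ?_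
      simp only [Function.comp_apply, coe_mapRingHom, Polynomial.map_mul, Polynomial.map_pow,
        Polynomial.map_neg, Polynomial.map_one, (h1 p hp).1.natDegree_map]
    rw [e, ← Polynomial.map_pow, ← Polynomial.map_mul, ← Polynomial.map_sub]
    exact Polynomial.map_dvd j h2

section arc

variable {M Ω : Type} [Field M] [NumberField M] [Field Ω] [NumberField Ω] [Algebra M Ω]

/-- The conditions at `2` and at infinity. -/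
def Arc (M : Type) {Ω : Type} [Field M] [Field Ω] [Algebra M Ω] (f : ℤ[X]) (θ x : Ω) : Prop :=
  ∃ h : M[X], aeval θ h = x ∧ (∀ σ : M →+* ℚ_[2], LocIm ℚ_[2] (ov ℚ_[2] f) (h.map σ)) ∧
    ∀ ρ : M →+* ℝ, LocIm ℝ (ov ℝ f) (h.map ρ)

variable {f : ℤ[X]} {θ : Ω}

theorem arc_sq (hgen : ∀ y : Ω, ∃ h : M[X], aeval θ h = y) (x : Ω) : Arc M f θ (x ^ 2) := by
  obtain ⟨h, rfl⟩ := hgen x
  refine ⟨h ^ 2, by rw [map_pow], fun σ => ?_, fun ρ => ?_⟩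
  · rw [Polynomial.map_pow]
    exact locIm_sq _ _
  · rw [Polynomial.map_pow]
    exact locIm_sq _ _

theorem arc_mul {x y : Ω} (h : Arc M f θ x) (h' : Arc M f θ y) : Arc M f θ (x * y) := by
  obtain ⟨a, rfl, a1, a2⟩ := h
  obtain ⟨b, rfl, b1, b2⟩ := h'
  refine ⟨a * b, by rw [map_mul], fun σ => ?_, fun ρ => ?_⟩
  · rw [Polynomial.map_mul]
    exact Pool.Agent.N891.PQ.LocIm.mul (a1 σ) (b1 σ)
  · rw [Polynomial.map_mul]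
    exact Pool.Agent.N891.PQ.LocIm.mul (a2 ρ) (b2 ρ)

theorem arc_sig [IsGalois ℚ M] {L : Type} [Field L] [NumberField L] [Algebra L Ω] {θ₀ : L}
    (hθ : θ = algebraMap L Ω θ₀) (σ : Ω ≃ₐ[L] Ω) {x : Ω} (h : Arc M f θ x) :
    Arc M f θ (σ x) := by
  obtain ⟨a, rfl, a1, a2⟩ := h
  set τ : M ≃ₐ[ℚ] M := (σ.restrictScalars ℚ).restrictNormal M with hτ
  have hτ' : ∀ y : M, algebraMap M Ω (τ y) = σ (algebraMap M Ω y) := fun y =>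
    AlgEquiv.restrictNormal_commutes (σ.restrictScalars ℚ) M y
  have hσθ : σ θ = θ := by rw [hθ, σ.commutes]
  refine ⟨a.map (τ : M →+* M), ?_, fun ρ => ?_, fun ρ => ?_⟩
  · rw [aeval_def, eval₂_map, aeval_def]
    have e : (algebraMap M Ω).comp (τ : M →+* M) = (σ : Ω →+* Ω).comp (algebraMap M Ω) :=
      RingHom.ext fun y => hτ' y
    have h1 := hom_eval₂ a (algebraMap M Ω) (σ : Ω →+* Ω) θ
    rw [e]
    have h2 : (σ : Ω →+* Ω) θ = θ := hσθ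
    rw [h2] at h1
    exact h1.symm
  · rw [Polynomial.map_map]
    exact a1 _
  · rw [Polynomial.map_map]
    exact a2 _

end arc

section base

variable {L M Ω : Type} [Field L] [NumberField L] [Field M] [NumberField M]
  [Field Ω] [NumberField Ω] [Algebra L Ω] [Algebra M Ω]

/-- From the conditions over the extension to the local condition over `ℚ`. -/
theorem arc_down {f : ℤ[X]} {θ x : L} {g : ℕ} (hc : IsGen g f θ)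
    (hmin : minpoly M (algebraMap L Ω θ) = f.map (algebraMap ℤ M))
    (τ₂ : M →+* ℚ_[2]) (ρ₀ : M →+* ℝ) (h : Arc M f (algebraMap L Ω θ) (algebraMap L Ω x)) :
    ∃ h₀ : ℚ[X], aeval θ h₀ = x ∧ LocIm ℚ_[2] (ov ℚ_[2] f) (oq ℚ_[2] h₀) ∧
      LocIm ℝ (ov ℝ f) (oq ℝ h₀) := by
  obtain ⟨a, ha, a1, a2⟩ := h
  obtain ⟨c, hx⟩ := hc.gen x
  set h₀ : ℚ[X] := ∑ i, C (c i) * X ^ (i : ℕ) with hh₀
  have h1 : aeval θ h₀ = x := by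
    rw [hh₀, map_sum, hx]
    refine Finset.sum_congr rfl fun i _ => ?_
    rw [map_mul, map_pow, aeval_X, aeval_C]
    rfl
  have h2 : f.map (algebraMap ℤ M) ∣ a - h₀.map (algebraMap ℚ M) := by
    rw [← hmin]
    apply minpoly.dvd
    rw [map_sub, ha, aeval_map_algebraMap, aeval_algebraMap_apply, h1, sub_self]
  have key : ∀ (F : Type) [Field F] [CharZero F] (ρ : M →+* F),
      LocIm F (ov F f) (a.map ρ) → LocIm F (ov F f) (oq F h₀) := by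
    intro F _ _ ρ H
    refine locIm_congr ?_ H
    have h3 := Polynomial.map_dvd ρ h2
    rw [Polynomial.map_sub, Polynomial.map_map, Polynomial.map_map] at h3
    have e1 : ρ.comp (algebraMap ℤ M) = Int.castRingHom F := RingHom.ext_int _ _
    have e2 : ρ.comp (algebraMap ℚ M) = Rat.castHom F := RingHom.ext_rat _ _
    rw [e1, e2] at h3
    exact h3
  exact ⟨h₀, h1, key _ τ₂ (a1 τ₂), key _ ρ₀ (a2 ρ₀)⟩

theorem base_sq {θ η : L} {J T : Finset ℕ} {δ : ℕ}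
    (hJm : ∀ q ∈ J, q.Prime) (hTm : ∀ p ∈ T, p.Prime)
    (hUR : ∀ 𝔓 : HeightOneSpectrum (𝓞 L), ¬ Ov δ 𝔓 → ∃ 𝔓' : HeightOneSpectrum (𝓞 Ω),
      ∀ x : L, 𝔓'.valuation Ω (algebraMap L Ω x) = 𝔓.valuation L x)
    (hSP : ∀ q ∈ J, ∀ 𝔓' : HeightOneSpectrum (𝓞 Ω), Ov q 𝔓' → ¬ Ov δ 𝔓' → ∀ s : Ω, s ≠ 0 →
      ∃ s₀ : L, 𝔓'.valuation Ω (s - algebraMap L Ω s₀) < 𝔓'.valuation Ω s)
    (hη : ∀ 𝔓 : HeightOneSpectrum (𝓞 L), 𝔓.valuation L η ≤ 1)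
    (hT : ∀ p ∈ T, ∀ x : L, x ≠ 0 → IsSquare (Algebra.norm ℚ x) →
      ∀ 𝔓 : HeightOneSpectrum (𝓞 L), Ov p 𝔓 → Ev 𝔓 x)
    (hRAM : ∀ p : ℕ, p.Prime → ∀ 𝔓₀ : HeightOneSpectrum (𝓞 L), Ov p 𝔓₀ →
      𝔓₀.valuation L η < 1 → (∃ c : ℤ, 𝔓₀.valuation L (θ - (c : L)) < 1) ∧
      ∀ 𝔓 : HeightOneSpectrum (𝓞 L), Ov p 𝔓 → 𝔓 ≠ 𝔓₀ → 𝔓.valuation L η = 1)
    (hPAR : ∀ p : ℕ, p.Prime → ∀ (𝔓₀ : HeightOneSpectrum (𝓞 L)) (c : ℤ), Ov p 𝔓₀ →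
      𝔓₀.valuation L (θ - (c : L)) < 1 → ∀ x : L, x ≠ 0 → IsSquare (Algebra.norm ℚ x) →
      (∀ 𝔓 : HeightOneSpectrum (𝓞 L), Ov p 𝔓 → 𝔓 ≠ 𝔓₀ → Ev 𝔓 x) → Ev 𝔓₀ x)
    (hδ : ∀ 𝔓 : HeightOneSpectrum (𝓞 L), Ov δ 𝔓 → ∃ p ∈ T, Ov p 𝔓)
    (hJδ : ∀ q ∈ J, ∀ 𝔓 : HeightOneSpectrum (𝓞 L), Ov q 𝔓 → ¬ Ov δ 𝔓)
    {x : L} (hx : x ≠ 0) (hN : IsSquare (Algebra.norm ℚ x))
    (hC : Cnd J T (algebraMap L Ω θ) (algebraMap L Ω η) (algebraMap L Ω x)) :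
    (∀ 𝔓 : HeightOneSpectrum (𝓞 L), (∀ q ∈ J, ¬ Ov q 𝔓) → Ev 𝔓 x) ∧
      (∀ q ∈ J, ∀ 𝔓 : HeightOneSpectrum (𝓞 L), Ov q 𝔓 → 𝔓.valuation L θ = 1 →
        U0 𝔓 ((q : L) * θ) x) := by
  have key : ∀ 𝔓 : HeightOneSpectrum (𝓞 L), (∀ p ∈ T, ¬ Ov p 𝔓) → (∀ q ∈ J, ¬ Ov q 𝔓) →
      𝔓.valuation L η = 1 → Ev 𝔓 x := by
    intro 𝔓 h1 h2 h3
    obtain ⟨𝔓', hv⟩ := hUR 𝔓 fun h => by
      obtain ⟨p, hp, hp'⟩ := hδ 𝔓 h
      exact h1 p hp hp'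
    rw [← ev_down hv]
    exact hC.ev 𝔓' (fun p hpT h => h1 p hpT ((ov_down hv p).1 h))
      (fun q hq h => h2 q hq ((ov_down hv q).1 h)) (by rw [hv]; exact h3)
  refine ⟨fun 𝔓 h𝔓 => ?_, fun q hq 𝔓 h1 h2 => ?_⟩
  · by_cases hP : ∃ p ∈ T, Ov p 𝔓
    · obtain ⟨p, hpT, hp𝔓⟩ := hP
      exact hT p hpT x hx hN 𝔓 hp𝔓
    · push_neg at hP
      by_cases h1 : 𝔓.valuation L η = 1
      · exact key 𝔓 hP h𝔓 h1
      · obtain ⟨p, hpp, hp𝔓⟩ := exists_below 𝔓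
        obtain ⟨⟨c, hc⟩, huniq⟩ := hRAM p hpp 𝔓 hp𝔓 (lt_of_le_of_ne (hη 𝔓) h1)
        refine hPAR p hpp 𝔓 c hp𝔓 hc x hx hN fun 𝔮 hq hne => ?_
        refine key 𝔮 (fun p' hp' h => ?_) (fun q' hq' h => ?_) (huniq 𝔮 hq hne)
        · have := below_unique (hTm p' hp') hpp h hq
          exact hP p' hp' (this ▸ hp𝔓)
        · have := below_unique (hJm q' hq') hpp h hq
          exact h𝔓 q' hq' (this ▸ hp𝔓)
  · obtain ⟨𝔓', hv⟩ := hUR 𝔓 (hJδ q hq 𝔓 h1)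
    have hq' : Ov q 𝔓' := (ov_down hv q).2 h1
    have hd := hSP q hq 𝔓' hq' (fun h => hJδ q hq 𝔓 h1 ((ov_down hv δ).1 h))
    have h3 := hC.u0 q hq 𝔓' hq' (by rw [hv]; exact h2)
    refine ⟨fun h4 => sq_down hv hd (h3.1 ((ev_down hv x).2 h4)), fun h4 => ?_⟩
    have h5 := h3.2 fun h6 => h4 ((ev_down hv x).1 h6)
    have e : algebraMap L Ω x * ((q : Ω) * algebraMap L Ω θ) =
        algebraMap L Ω (x * ((q : L) * θ)) := by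
      rw [map_mul, map_mul, map_natCast]
    rw [e] at h5
    exact sq_down hv hd h5

end base

end Pool.Agent.N874.QM
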