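import Pool.Agent.N874.QM.Fld
import Pool.Agent.N400.PQ.Main
import Pool.Agent.N262.PQ.Exs

/-!
# A positive proportion of all odd hyperelliptic Jacobians over `ℚ`, over a Galois 2-extension: counting

Project QM (helper874), after `Pool/Agent/N400/PQ/Main.lean` of helper400.
-/

set_option autoImplicit false
set_option linter.all false

open Polynomial IsDedekindDomain NumberField
open Pool.Agent.N783.PQ
open Pool.Agent.N352.PJ (dd)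
open Pool.Agent.N400.PQ (card_fib sum_dd ht_card ht_scale scale_inj good_card)
open scoped Classical IntermediateField

namespace Pool.Agent.N874.QM

/-- Existence of the set `S`. -/
theorem exs_split (hSPL : S_SPL) (M : Type) [Field M] [NumberField M] [IsGalois ℚ M] {γ : M}
    {m : ℤ[X]} {δ : ℕ} (hG : Gen ℚ γ m δ) (hdeg : m.natDegree = Module.finrank ℚ M) (g W r : ℕ)
    (hg : 1 ≤ g) : ∃ (S : Finset ℕ) (h : ℕ → ℤ[X]), GoodS g W S h ∧ S.card = r ∧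
      ∀ q ∈ S, SplitMod q m := by
  obtain ⟨S, hS, hS2⟩ := hSPL M γ m δ hG hdeg (max W (2 * g + 1)) r
  have hex : ∀ q : ℕ, ∃ h : ℤ[X], q ∈ S → h.Monic ∧ h.natDegree = 2 * g ∧
      h.coeff (2 * g - 1) = 0 ∧ Irreducible (rd q h) := by
    intro q
    by_cases hq : q ∈ S
    · obtain ⟨h, hh⟩ := Pool.Agent.N262.PQ.exists_h g q hg (hS2 q hq).1
        (lt_of_le_of_lt (le_max_right _ _) (hS2 q hq).2.1)
      exact ⟨h, fun _ => hh⟩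
    · exact ⟨0, fun h => absurd h hq⟩
  choose h hh using hex
  refine ⟨S, h, fun q hq => ?_, hS, fun q hq => (hS2 q hq).2.2.2⟩
  obtain ⟨h1, h2, h3, h4⟩ := hS2 q hq
  obtain ⟨a1, a2, a3, a4⟩ := hh q hq
  exact ⟨h1, lt_of_le_of_lt (le_max_left _ _) h2, lt_of_le_of_lt (le_max_right _ _) h2, h3, a1, a2,
    a3, a4⟩

theorem mainM (H : Parts) (hFAM : S_FAMI) (hBAD : S_BAD) (hGEN : S_GEN) (hSPL : S_SPL) {g : ℕ}
    (hg : 1 ≤ g) (M : Type) [Field M] [NumberField M] [IsGalois ℚ M] (τ₂ : M →+* ℚ_[2])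
    (ρ₀ : M →+* ℝ) (n : ℕ) (hM : Module.finrank ℚ M = 2 ^ n) :
    ∃ c : ℝ, 0 < c ∧ ∃ B₀ : ℕ, ∀ B ≥ B₀,
    {f : ℤ[X] | Ht g B f}.Finite ∧ c * ({f : ℤ[X] | Ht g B f}.ncard : ℝ) ≤
      ({f : ℤ[X] | Ht g B f ∧ Irreducible (ov ℚ f) ∧ SelM M (f.map (algebraMap ℤ M))}.ncard : ℝ) := by
  obtain ⟨γ, p, δ, hG, hdeg⟩ := hGEN M
  obtain ⟨W, f₁, hf₁, hWδ, hWi, c, hc, hfam⟩ := hFAM g δ hg
  obtain ⟨κ, htw⟩ := selM H hg
  obtain ⟨C, hbad⟩ := hBAD g κ hg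
  obtain ⟨m, hm⟩ : ∃ m : ℕ, 2 * (C * (4 * 2 ^ κ : ℝ) ^ dd g) / c < 2 ^ m :=
    pow_unbounded_of_one_lt _ (by norm_num)
  obtain ⟨S, h, hS, hcard, hsp⟩ := exs_split hSPL M hG hdeg g W m hg
  obtain ⟨B₁₀, hB₁₀⟩ := hfam S h hS
  obtain ⟨N₀, hN₀⟩ := hbad W S h hS
  set Q : ℕ := ∏ q ∈ S, q with hQ
  have hq1 : ∀ q ∈ S, 1 ≤ q := fun q hq => (hS q hq).1.pos
  have hQ1 : 1 ≤ Q := Finset.one_le_prod' hq1
  set P : ℕ := ∏ q ∈ S, q ^ (2 * g) with hP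
  have hP0 : (0 : ℝ) < P := by
    have : 0 < P := Finset.prod_pos fun q hq => pow_pos (hq1 q hq) _
    exact_mod_cast this
  have hQ0 : (0 : ℝ) < Q := by exact_mod_cast hQ1
  set X₀ : ℕ := max (max B₁₀ (4 ^ N₀)) 1 with hX₀
  refine ⟨c / 2 / (P * 2 ^ m * (3 ^ (2 * g) * (2 * Q) ^ dd g)), by positivity, X₀ * Q,
    fun B hB => ?_⟩
  set B₁ : ℕ := B / Q with hB₁
  have hBX : X₀ ≤ B₁ := (Nat.le_div_iff_mul_le hQ1).2 hB
  have hb1 : 1 ≤ B₁ := (le_max_right _ _).trans hBX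
  have hb2 : B₁₀ ≤ B₁ := ((le_max_left _ _).trans (le_max_left _ _)).trans hBX
  have hb3 : 4 ^ N₀ ≤ B₁ := ((le_max_right _ _).trans (le_max_left _ _)).trans hBX
  have hBQ : B₁ * Q ≤ B := Nat.div_mul_le_self B Q
  have hBQ2 : B ≤ 2 * Q * B₁ := by
    have e1 : B < B₁ * Q + Q := by
      have := Nat.lt_div_mul_add (a := B) (b := Q) hQ1
      exact this
    nlinarith
  have hB1 : 1 ≤ B := le_trans (by nlinarith) hBQ
  obtain ⟨N, hNa, hNb⟩ : ∃ N : ℕ, 2 ^ κ * B₁ ≤ 4 ^ N ∧ 4 ^ N ≤ 4 * (2 ^ κ * B₁) := by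
    refine ⟨Nat.log 4 (2 ^ κ * B₁) + 1, (Nat.lt_pow_succ_log_self (by norm_num) _).le, ?_⟩
    rw [pow_succ, mul_comm]
    refine Nat.mul_le_mul_left 4 (Nat.pow_log_le_self 4 ?_)
    positivity
  have hNN : N₀ ≤ N := by
    have e1 : 4 ^ N₀ ≤ 4 ^ N := hb3.trans (le_trans (Nat.le_mul_of_pos_left _ (by positivity)) hNa)
    exact (Nat.pow_le_pow_iff_right (by norm_num)).1 e1
  obtain ⟨hfin, hBd⟩ := hN₀ N hNN
  refine ⟨(ht_card g B hB1).1, ?_⟩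
  set Hs := {f : ℤ[X] | Ht g B f ∧ Irreducible (ov ℚ f) ∧ SelM M (f.map (algebraMap ℤ M))} with hH
  set G := {f : ℤ[X] | Fam g B₁ W f₁ S h f ∧ ¬ LBad g N κ S h f} with hGdef
  have hHf : Hs.Finite := (ht_card g B hB1).1.subset fun f hf => hf.1
  have hGf : G.Finite := (ht_card g B₁ hb1).1.subset fun f hf => hf.1.ht
  have hGc : c / 2 * (B₁ : ℝ) ^ dd g ≤ P * (G.ncard : ℝ) := by
    refine good_card (C := C) (m := m) hc hP0 B₁ N (hB₁₀ B₁ hb2) hfin ?_ hm ?_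
    · rw [hcard] at hBd
      exact_mod_cast hBd
    · exact_mod_cast hNb
  have hJ0 : ∀ J ⊆ S, ((∏ q ∈ J, q : ℕ) : ℤ) ≠ 0 := by
    intro J hJ
    have : 0 < ∏ q ∈ J, q := Finset.prod_pos fun q hq => hq1 q (hJ hq)
    exact_mod_cast this.ne'
  have hδW : ∀ q : ℕ, q.Prime → q ∣ δ → q ∣ W := fun q hq hd =>
    hWδ q hq (Nat.le_of_dvd (Nat.pos_of_ne_zero hG.ne) hd)
  have hcard1 := card_fib hGf hHf S (fun J f => f.scaleRoots ((∏ q ∈ J, q : ℕ) : ℤ)) (by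
      intro f hf
      obtain ⟨J, hJ, hirr, hsel⟩ := htw M τ₂ ρ₀ n hM γ p δ hG B₁ N W f₁ S h f hf₁ hS hf.1 hNa hb1
        hf.2 hWi hδW hsp
      have hDle : ∏ q ∈ J, q ≤ Q :=
        Finset.prod_le_prod_of_subset_of_one_le' hJ fun q hq _ => hq1 q hq
      exact ⟨J, hJ, ht_scale hf.1.ht ((Nat.mul_le_mul_left _ hDle).trans hBQ), hirr, hsel⟩) (by
      intro J hJ x hx y hy hxy
      exact scale_inj (hJ0 J hJ) (by rw [hx.1.ht.deg, hy.1.ht.deg]) hxy)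
  rw [hcard] at hcard1
  have hcard' : (G.ncard : ℝ) ≤ 2 ^ m * Hs.ncard := by exact_mod_cast hcard1
  have hM' : ({f : ℤ[X] | Ht g B f}.ncard : ℝ) ≤
      3 ^ (2 * g) * (2 * Q) ^ dd g * (B₁ : ℝ) ^ dd g := by
    have e1 : ({f : ℤ[X] | Ht g B f}.ncard : ℝ) ≤ 3 ^ (2 * g) * (B : ℝ) ^ dd g := by
      exact_mod_cast (ht_card g B hB1).2
    refine e1.trans ?_
    rw [mul_assoc, ← mul_pow]
    have e2 : (B : ℝ) ≤ 2 * Q * B₁ := by exact_mod_cast hBQ2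
    gcongr
  calc c / 2 / (P * 2 ^ m * (3 ^ (2 * g) * (2 * Q) ^ dd g)) *
        ({f : ℤ[X] | Ht g B f}.ncard : ℝ)
      ≤ c / 2 / (P * 2 ^ m * (3 ^ (2 * g) * (2 * Q) ^ dd g)) *
        (3 ^ (2 * g) * (2 * Q) ^ dd g * (B₁ : ℝ) ^ dd g) :=
        mul_le_mul_of_nonneg_left hM' (by positivity)
    _ = c / 2 * (B₁ : ℝ) ^ dd g / (P * 2 ^ m) := by
        field_simp
    _ ≤ (P * (G.ncard : ℝ)) / (P * 2 ^ m) := by gcongr
    _ ≤ (P * (2 ^ m * Hs.ncard)) / (P * 2 ^ m) := by gcongr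
    _ = Hs.ncard := by field_simp

end Pool.Agent.N874.QM
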