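import Pool.Agent.N783.PQ.Final
import Pool.Agent.N874.QM.Cnt
import Pool.Agent.N394.QM.Irr
import Pool.Agent.N711.QM.Gfi
import Pool.Agent.N849.QM.FAMI
import Pool.Agent.N999.QM.Core
import Pool.Agent.N160.QM.GEN
import Pool.Agent.N891.QM.Spl
import Pool.Agent.N222.QM.UR
import Pool.Agent.N835.QM.SPD
import Pool.Agent.N756.QM.SigLie
import Pool.Agent.N438.QM.PiRam
import Pool.Agent.N438.QM.Emb
import Pool.Agent.N874.JM.Par

/-!
# All the parts of project QM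

Project QM (helper874).
-/

set_option autoImplicit false
set_option linter.all false

open Polynomial IsDedekindDomain NumberField
open Pool.Agent.N783.PQ

namespace Pool.Agent.N874.QM

theorem recp : S_REC :=
  Pool.Agent.N835.PQ.rec Pool.Agent.N394.PQ.prd him hun hq

theorem parts : Parts where
  cls := Pool.Agent.N457.PQ.cls
  exq := exq
  csq := csq
  par := par
  sqt := Pool.Agent.N457.PQ.sqt
  core := Pool.Agent.N999.QM.core Pool.Agent.N457.PQ.cls Pool.Agent.N498.PP.lin exq ns parq recp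
    sd tv lb sqf
  ur := Pool.Agent.N222.QM.UR.ur
  spd := Pool.Agent.N835.QM.spd
  sig := Pool.Agent.N756.QM.sig
  lie := Pool.Agent.N756.QM.lie
  pi := Pool.Agent.N438.QM.PiRam.pi'
  ram := Pool.Agent.N438.QM.PiRam.ram int
  emb := Pool.Agent.N438.QM.Emb.emb
  tow := Pool.Agent.N874.JM.parts.tow
  loc1 := Pool.Agent.N874.JM.parts.loc1
  loc2 := Pool.Agent.N874.JM.parts.loc2

theorem famI : S_FAMI :=
  Pool.Agent.N849.QM.fami Pool.Agent.N134.PQ.bx
    (Pool.Agent.N595.PQ.sml Pool.Agent.N134.PQ.ld Pool.Agent.N134.PQ.bx)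
    Pool.Agent.N755.PQ.WK.wk Pool.Agent.N891.PQ.str
    (Pool.Agent.N711.QM.gfi Pool.Agent.N394.QM.irr) Pool.Agent.N262.PQ.dscp

/-- The theorem on the explicit 2-Selmer groups. -/
theorem final {g : ℕ} (hg : 1 ≤ g) (M : Type) [Field M] [NumberField M] [IsGalois ℚ M]
    (τ₂ : M →+* ℚ_[2]) (ρ₀ : M →+* ℝ) (n : ℕ) (hM : Module.finrank ℚ M = 2 ^ n) :
    ∃ c : ℝ, 0 < c ∧ ∃ B₀ : ℕ, ∀ B ≥ B₀,
    {f : ℤ[X] | Ht g B f}.Finite ∧ c * ({f : ℤ[X] | Ht g B f}.ncard : ℝ) ≤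
      ({f : ℤ[X] | Ht g B f ∧ Irreducible (ov ℚ f) ∧ SelM M (f.map (algebraMap ℤ M))}.ncard : ℝ) :=
  mainM parts famI bad Pool.Agent.N160.QM.gen Pool.Agent.N891.QM.spl hg M τ₂ ρ₀ n hM

end Pool.Agent.N874.QM
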