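import Pool.Agent.N874.QM.Abs

/-!
# The 2-Selmer group over the extension: the fields

Project QM (helper874).
-/

set_option autoImplicit false
set_option linter.all false

open Polynomial IsDedekindDomain NumberField
open Pool.Agent.N783.PQ
open Pool.Agent.N874.PP (Ev Sq1 U0)
open Pool.Agent.N874.PM (Lies ev_down sq_down ev_sq ev_mul top_up)
open Pool.Agent.N874.JM (LocF irr_up)
open Pool.Agent.N891.PQ (exists_below not_ev_exp locIm_one ov_scale sq_two rd_scale rd_congr irr_of_rd)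
open scoped Classical IntermediateField

namespace Pool.Agent.N874.QM

/-- A generator with irreducible integral equation. -/
theorem isGen_of {L : Type} [Field L] [NumberField L] {g : ℕ} {f : ℤ[X]} {θ : L} (hm : f.Monic)
    (hd : f.natDegree = 2 * g + 1) (hroot : aeval θ f = 0) (hirr : Irreducible (ov ℚ f))
    (htop : Algebra.adjoin ℚ {θ} = ⊤) : IsGen g f θ := by
  have hm' : (ov ℚ f).Monic := hm.map _
  have hd' : (ov ℚ f).natDegree = 2 * g + 1 := by rw [ov, hm.natDegree_map, hd]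
  have hroot' : aeval θ (ov ℚ f) = 0 := by
    have e : ov ℚ f = f.map (algebraMap ℤ ℚ) := by
      unfold ov
      congr 1
    rw [e, aeval_map_algebraMap]
    exact hroot
  have hmin : minpoly ℚ θ = ov ℚ f := (minpoly.eq_of_irreducible_of_monic hirr hroot' hm').symm
  have htop' : ℚ⟮θ⟯ = ⊤ := by
    apply IntermediateField.toSubalgebra_injective
    rw [IntermediateField.adjoin_simple_toSubalgebra_of_isAlgebraic
      (Algebra.IsAlgebraic.isAlgebraic θ), htop, IntermediateField.top_toSubalgebra]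
  refine ⟨hm, hd, hroot, ?_, ?_⟩
  · rw [← (Field.primitive_element_iff_minpoly_natDegree_eq ℚ θ).1 htop', hmin, hd']
  · intro x
    have hx : x ∈ (aeval (R := ℚ) θ).range := by
      rw [← Algebra.adjoin_singleton_eq_range_aeval, htop]
      exact Algebra.mem_top
    obtain ⟨p, rfl⟩ := hx
    have h1 : aeval θ p = aeval θ (p %ₘ ov ℚ f) := by
      have h2 := congrArg (aeval θ) (modByMonic_add_div p (ov ℚ f))
      rw [map_add, map_mul, hroot', zero_mul, add_zero] at h2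
      exact h2.symm
    have hlt : (p %ₘ ov ℚ f).natDegree < 2 * g + 1 := by
      rw [← hd']
      exact natDegree_modByMonic_lt p hm' (by
        intro h
        rw [h] at hd'
        simp at hd')
    refine ⟨fun i => (p %ₘ ov ℚ f).coeff i, ?_⟩
    change aeval θ p = _
    rw [h1]
    conv_lhs => rw [(p %ₘ ov ℚ f).as_sum_range_C_mul_X_pow' hlt]
    rw [map_sum, Finset.sum_range]
    refine Finset.sum_congr rfl fun i _ => ?_
    rw [map_mul, map_pow, aeval_X, aeval_C]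
    rfl

/-- The theorem on the Selmer group over `M`. -/
theorem selM (H : Parts) {g : ℕ} (hg : 1 ≤ g) : ∃ κ : ℕ, ∀ (M : Type) [Field M] [NumberField M]
    [IsGalois ℚ M] (τ₂ : M →+* ℚ_[2]) (ρ₀ : M →+* ℝ) (n : ℕ), Module.finrank ℚ M = 2 ^ n →
    ∀ (γ : M) (m : ℤ[X]) (δ : ℕ), Gen ℚ γ m δ →
    ∀ (B N W : ℕ) (f₁ : ℤ[X]) (S : Finset ℕ) (h : ℕ → ℤ[X]) (f : ℤ[X]), GoodF g W f₁ →
    GoodS g W S h → Fam g B W f₁ S h f → 2 ^ κ * B ≤ 4 ^ N → 1 ≤ B → ¬ LBad g N κ S h f →
    (∀ p : ℕ, p.Prime → p ∣ W → Irreducible (rd p f₁)) →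
    (∀ p : ℕ, p.Prime → p ∣ δ → p ∣ W) → (∀ q ∈ S, SplitMod q m) →
    ∃ J ⊆ S, Irreducible (ov ℚ (f.scaleRoots ((∏ q ∈ J, q : ℕ) : ℤ))) ∧
      SelM M ((f.scaleRoots ((∏ q ∈ J, q : ℕ) : ℤ)).map (algebraMap ℤ M)) := by
  obtain ⟨κ, hκ⟩ := H.core g hg
  refine ⟨κ, ?_⟩
  intro M _ _ _ τ₂ ρ₀ n hM γ m δ hG B N W f₁ S s f hf₁ hS hF hBN hB hnb hW hδ hsp
  obtain ⟨hsq, hcore⟩ := hκ B N W f₁ S s f hf₁ hS hF hBN hB hnb
  have hm := hF.ht.mon
  have hd := hF.ht.deg
  have h2irr : Irreducible (rd 2 f) := by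
    rw [rd_congr hF.one hf₁.two]
    exact hf₁.irr
  have hirr : Irreducible (ov ℚ f) := irr_of_rd hm h2irr
  have hmM : (f.map (algebraMap ℤ M)).Monic := hm.map _
  have hdM : (f.map (algebraMap ℤ M)).natDegree = 2 * g + 1 := by rw [hm.natDegree_map, hd]
  have hup : ∀ f' : ℤ[X], f'.Monic → f'.natDegree = 2 * g + 1 → Irreducible (ov ℚ f') →
      Irreducible (f'.map (algebraMap ℤ M)) := by
    intro f' h1 h2 h3
    have h4 : (ov ℚ f').natDegree = 2 * g + 1 := by rw [ov, h1.natDegree_map, h2]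
    have h5 := irr_up hM h3 (h1.map _) (by rw [h4]; exact odd_two_mul_add_one g)
    rw [ov, Polynomial.map_map] at h5
    have e : (algebraMap ℚ M).comp (Int.castRingHom ℚ) = algebraMap ℤ M := RingHom.ext_int _ _
    rwa [e] at h5
  have hirrM := hup f hm hd hirr
  obtain ⟨Ω, instF, instA, t, ht, hrk, htop, hfin, hmin⟩ :=
    Pool.Agent.N874.JM.exists_field hirrM hmM
  rw [hdM] at hrk
  haveI : CharZero Ω := charZero_of_injective_algebraMap (algebraMap M Ω).injective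
  haveI : FiniteDimensional ℚ Ω := FiniteDimensional.trans ℚ M Ω
  haveI : NumberField Ω := NumberField.mk
  have ht' : aeval t f = 0 := by
    rw [aeval_map_algebraMap] at ht
    exact ht
  -- the field `L`
  let L : IntermediateField ℚ Ω := ℚ⟮t⟯
  haveI : NumberField L := NumberField.mk
  let θ : L := IntermediateField.AdjoinSimple.gen ℚ t
  have hθ : algebraMap L Ω θ = t := IntermediateField.AdjoinSimple.algebraMap_gen ℚ t
  have hrootL : aeval θ f = 0 := by
    apply (algebraMap L Ω).injective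
    rw [map_zero, ← aeval_algebraMap_apply, hθ, ht']
  have htopL : Algebra.adjoin ℚ {θ} = ⊤ := by
    have h1 := IntermediateField.adjoin_simple_toSubalgebra_of_isAlgebraic
      (Algebra.IsAlgebraic.isAlgebraic (R := ℚ) t)
    rw [eq_top_iff]
    rintro ⟨x, hx⟩ -
    have hx' : x ∈ Algebra.adjoin ℚ {t} := by
      rw [← h1]
      exact hx
    rw [Algebra.adjoin_singleton_eq_range_aeval] at hx' ⊢
    obtain ⟨p, hp⟩ := hx'
    refine ⟨p, ?_⟩
    apply (algebraMap L Ω).injective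
    change algebraMap L Ω (aeval θ p) = x
    rw [← aeval_algebraMap_apply, hθ]
    exact hp
  have hc : IsGen g f θ := isGen_of hm hd hrootL hirr htopL
  obtain ⟨J, hJ, hsel⟩ := hcore L θ hc
  refine ⟨J, hJ, ?_⟩
  have hprimes : ∀ q ∈ J, q.Prime := fun q hq => (hS q (hJ hq)).1
  have hD0 : (∏ q ∈ J, q) ≠ 0 := by
    rw [Finset.prod_ne_zero_iff]
    exact fun q hq => (hprimes q hq).ne_zero
  have hD2 : (((∏ q ∈ J, q : ℕ) : ℤ) : ZMod 2) = 1 := by
    have h1 : ∀ q ∈ J, ((q : ℕ) : ZMod 2) = 1 := by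
      intro q hq
      have h2 := (hS q (hJ hq)).2.2.2.1
      have h3 : q % 2 = 1 := by omega
      rw [← ZMod.natCast_mod q 2, h3]
      rfl
    rw [Int.cast_natCast, Nat.cast_prod]
    exact Finset.prod_eq_one h1
  have hmain := fun h hne hN hloc hr => selM_abs (L := L) (Ω := Ω) (T := W.primeFactors) (θ := θ) H
    hg hc hsq hS hF.con hG hsp
    (fun p hp => Nat.prime_of_mem_primeFactors hp)
    (Nat.mem_primeFactors.2 ⟨Nat.prime_two, hf₁.two, hf₁.pos.ne'⟩)
    (fun p hp => by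
      have h1 := Nat.dvd_of_mem_primeFactors hp
      rw [rd_congr hF.one h1]
      exact hW p (Nat.prime_of_mem_primeFactors hp) h1)
    (fun p hp hpd => Nat.mem_primeFactors.2 ⟨hp, hδ p hp hpd, hf₁.pos.ne'⟩)
    (by
      rw [Finset.disjoint_left]
      intro q hq hq'
      have h1 := Nat.le_of_dvd hf₁.pos (Nat.dvd_of_mem_primeFactors hq')
      exact absurd (hS q hq).2.1 (not_lt.2 h1))
    hJ (by rw [hθ]; exact htop) (by rw [hθ]; exact hmin) τ₂ ρ₀ hM hrk hsel h hne hN hloc hr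
  rw [hθ] at hmain
  generalize hDD : (∏ q ∈ J, q) = D at hD0 hD2 hmain ⊢
  have hmD : (f.scaleRoots (D : ℤ)).Monic := (monic_scaleRoots_iff (D : ℤ)).2 hm
  have hdD : (f.scaleRoots (D : ℤ)).natDegree = 2 * g + 1 := by rw [natDegree_scaleRoots, hd]
  have hirrD : Irreducible (ov ℚ (f.scaleRoots (D : ℤ))) := by
    refine irr_of_rd hmD ?_
    rw [rd_scale hD2]
    exact h2irr
  refine ⟨hirrD, ?_⟩
  intro h hcop hnorm hloc hr
  obtain ⟨F', hF'⟩ : ∃ F' : M[X], F' = (f.scaleRoots (D : ℤ)).map (algebraMap ℤ M) := ⟨_, rfl⟩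
  have hirrF : Irreducible F' := by
    rw [hF']
    exact hup _ hmD hdD hirrD
  have hmF' : F'.Monic := by
    rw [hF']
    exact hmD.map _
  have hdF' : F'.natDegree = 2 * g + 1 := by
    rw [hF', hmD.natDegree_map, hdD]
  haveI hfact' : Fact (Irreducible F') := ⟨hirrF⟩
  obtain ⟨Θ, hΘ⟩ : ∃ Θ : Ω, Θ = (D : Ω) * t := ⟨_, rfl⟩
  have hrootD : aeval Θ F' = 0 := by
    rw [hF', aeval_map_algebraMap]
    have h1 := scaleRoots_eval₂_mul (p := f) (algebraMap ℤ Ω) t (D : ℤ)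
    have h3 : eval₂ (algebraMap ℤ Ω) t f = 0 := by
      rw [← aeval_def]
      exact ht'
    rw [h3, mul_zero] at h1
    rw [aeval_def, hΘ]
    have e2 : (algebraMap ℤ Ω) (D : ℤ) = (D : Ω) := by simp
    rw [← e2]
    exact h1
  rw [← hF'] at hcop hnorm ⊢
  obtain ⟨φ, hφ⟩ : ∃ φ : AdjoinRoot F' →ₐ[M] Ω,
      φ = AdjoinRoot.liftAlgHom F' (Algebra.ofId M _) Θ hrootD := ⟨_, rfl⟩
  have hφmk : ∀ p : M[X], φ (AdjoinRoot.mk F' p) = aeval Θ p := by
    intro p
    have h1 := AdjoinRoot.liftAlgHom_mk F' (Algebra.ofId M Ω) Θ hrootD p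
    rw [Algebra.toRingHom_ofId, ← Polynomial.aeval_def] at h1
    rw [hφ]
    exact h1
  have hφinj : Function.Injective φ := φ.toRingHom.injective
  haveI : FiniteDimensional M (AdjoinRoot F') := hmF'.finite_adjoinRoot
  have hrk' : Module.finrank M (AdjoinRoot F') = Module.finrank M Ω := by
    rw [hrk, (AdjoinRoot.powerBasis hmF'.ne_zero).finrank, AdjoinRoot.powerBasis_dim, hdF']
  have hφsurj : Function.Surjective φ :=
    (LinearMap.injective_iff_surjective_of_finrank_eq_finrank (f := φ.toLinearMap) hrk').1 hφinj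
  obtain ⟨e, he⟩ : ∃ e : AdjoinRoot F' ≃ₐ[M] Ω, ∀ x, e x = φ x :=
    ⟨AlgEquiv.ofBijective φ ⟨hφinj, hφsurj⟩, fun _ => rfl⟩
  have hemk : ∀ p : M[X], e (AdjoinRoot.mk F' p) = aeval Θ p := fun p => (he _).trans (hφmk p)
  have hne : aeval Θ h ≠ 0 := by
    intro h0
    obtain ⟨u, v, huv⟩ := hcop
    have := congrArg (aeval Θ) huv
    rw [map_add, map_mul, map_mul, hrootD, h0, mul_zero, mul_zero, add_zero, map_one] at this
    exact zero_ne_one this
  have hnorm' : IsSquare (Algebra.norm M (aeval Θ h)) := by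
    rw [← hemk, Algebra.norm_eq_of_algEquiv]
    exact hnorm
  rw [← hΘ] at hmain
  obtain ⟨y, hy⟩ := hmain h hne hnorm' hloc hr
  obtain ⟨z, rfl⟩ := hφsurj y
  obtain ⟨s', rfl⟩ := AdjoinRoot.mk_surjective z
  refine ⟨s', ?_⟩
  rw [← AdjoinRoot.mk_eq_zero]
  apply hφinj
  rw [map_zero, hφmk, map_sub, map_pow, sub_eq_zero]
  rw [hφmk] at hy
  rw [pow_two]
  exact hy

end Pool.Agent.N874.QM
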