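import Pool.Agent.N874.QM.Cnd

/-!
# The conditions for elements which are locally in the image, over the extension

Project QM (helper874).
-/

set_option autoImplicit false
set_option linter.all false

open Polynomial IsDedekindDomain NumberField
open Pool.Agent.N783.PQ
open Pool.Agent.N874.PP (Ev Sq1 U0)
open Pool.Agent.N874.PM (Lies ev_down sq_down ev_sq ev_mul)
open Pool.Agent.N874.JM (LocF)
open Pool.Agent.N891.PQ (exists_below not_ev_exp locIm_one)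
open scoped Classical IntermediateField

namespace Pool.Agent.N874.QM

theorem int_approx (v : HeightOneSpectrum (𝓞 ℚ)) {z : ℚ} (hz : v.valuation ℚ z ≤ 1) :
    ∃ z₁ : ℤ, v.valuation ℚ (z - (z₁ : ℚ)) < 1 := by
  obtain ⟨p, hp, hpv⟩ := exists_below v
  have hpv' := (ov_val p v).1 hpv
  have hz' : z * (z.den : ℚ) = (z.num : ℚ) := Rat.mul_den_eq_num z
  have hlt : ∀ c : ℤ, (p : ℤ) ∣ c → v.valuation ℚ (c : ℚ) < 1 := by
    rintro c ⟨d, rfl⟩
    rw [Int.cast_mul, map_mul, Int.cast_natCast]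
    refine lt_of_le_of_lt (mul_le_mul' le_rfl (val_le_int d v)) ?_
    rw [mul_one]
    exact hpv'
  have hpd : ¬ (p : ℤ) ∣ (z.den : ℤ) := by
    intro hd
    have h1 : v.valuation ℚ (z.den : ℚ) < 1 := by
      have := hlt _ hd
      rwa [Int.cast_natCast] at this
    have h2 : v.valuation ℚ (z.num : ℚ) < 1 := by
      rw [← hz', map_mul]
      refine lt_of_le_of_lt (mul_le_mul' hz le_rfl) ?_
      rw [one_mul]
      exact h1
    have hco : IsCoprime z.num (z.den : ℤ) := by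
      rw [Int.isCoprime_iff_nat_coprime, Int.natAbs_natCast]
      exact z.reduced
    obtain ⟨a, b, hab⟩ := hco
    have h3 : (a : ℚ) * z.num + b * z.den = 1 := by
      have := congrArg (fun y : ℤ => (y : ℚ)) hab
      push_cast at this
      exact this
    have h4 : v.valuation ℚ (1 : ℚ) < 1 := by
      rw [← h3]
      refine lt_of_le_of_lt (Valuation.map_add _ _ _) (max_lt ?_ ?_)
      · rw [map_mul]
        refine lt_of_le_of_lt (mul_le_mul' (val_le_int a v) le_rfl) ?_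
        rw [one_mul]
        exact h2
      · rw [map_mul]
        refine lt_of_le_of_lt (mul_le_mul' (val_le_int b v) le_rfl) ?_
        rw [one_mul]
        exact h1
    rw [map_one] at h4
    exact lt_irrefl _ h4
  have hvd : v.valuation ℚ (z.den : ℚ) = 1 := by
    refine val_eq_of _ v fun h => hpd ?_
    by_contra hnd
    have hco : IsCoprime (p : ℤ) (z.den : ℤ) :=
      ((Nat.prime_iff_prime_int.1 hp).coprime_iff_not_dvd).2 hnd
    obtain ⟨a, b, hab⟩ := hco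
    apply v.isPrime.ne_top
    rw [Ideal.eq_top_iff_one]
    have h1 : (a : 𝓞 ℚ) * (p : 𝓞 ℚ) + (b : 𝓞 ℚ) * (z.den : 𝓞 ℚ) ∈ v.asIdeal :=
      Ideal.add_mem _ (Ideal.mul_mem_left _ _ hpv) (Ideal.mul_mem_left _ _ h)
    have h2 : (a : 𝓞 ℚ) * (p : 𝓞 ℚ) + (b : 𝓞 ℚ) * (z.den : 𝓞 ℚ) = 1 := by
      have := congrArg (fun y : ℤ => (y : 𝓞 ℚ)) hab
      push_cast at this
      exact this
    rwa [h2] at h1
  have hco : IsCoprime (p : ℤ) (z.den : ℤ) :=
    ((Nat.prime_iff_prime_int.1 hp).coprime_iff_not_dvd).2 hpd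
  obtain ⟨a, b, hab⟩ := hco
  refine ⟨z.num * b, ?_⟩
  have h5 : (z - ((z.num * b : ℤ) : ℚ)) * (z.den : ℚ) = ((z.num * (a * p) : ℤ) : ℚ) := by
    have h6 : (a : ℚ) * p = 1 - b * z.den := by
      have := congrArg (fun y : ℤ => (y : ℚ)) hab
      push_cast at this
      linarith
    push_cast
    rw [sub_mul, hz', h6]
    ring
  have h7 := congrArg (v.valuation ℚ) h5
  rw [map_mul, hvd, mul_one] at h7
  rw [h7]
  exact hlt _ ⟨z.num * a, by ring⟩

section top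

variable {L M Ω : Type} [Field L] [NumberField L] [Field M] [NumberField M]
  [Field Ω] [NumberField Ω] [Algebra L Ω] [Algebra M Ω]

/-- Every element of the ring of integers is congruent to an integer modulo a prime over `q`. -/
theorem surj_top (hUR : S_UR) (hSPD : S_SPD) {γ : M} {m : ℤ[X]} {δ : ℕ}
    (hG : Gen ℚ γ m δ) {q : ℕ} (hq : q.Prime) (hsp : SplitMod q m)
    (w : HeightOneSpectrum (𝓞 M)) (h1 : Ov q w) (hδ : ¬ Ov δ w) :
    Function.Surjective ((Ideal.Quotient.mk w.asIdeal).comp (Int.castRingHom (𝓞 M))) := by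
  intro y
  obtain ⟨y, rfl⟩ := Ideal.Quotient.mk_surjective y
  set z : M := algebraMap (𝓞 M) M y with hz
  have hz1 : w.valuation M z ≤ 1 := w.valuation_le_one y
  obtain ⟨v, hv⟩ := (hUR ℚ M γ m δ hG).1 w hδ
  obtain ⟨z₀, hz₀⟩ : ∃ z₀ : ℚ, w.valuation M (z - algebraMap ℚ M z₀) < 1 := by
    by_cases h0 : z = 0
    · exact ⟨0, by rw [h0, map_zero, sub_zero, map_zero]; exact zero_lt_one⟩
    · obtain ⟨z₀, h⟩ := hSPD ℚ M γ m δ hG q hq hsp w h1 hδ z h0
      exact ⟨z₀, lt_of_lt_of_le h hz1⟩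
  have hz0 : v.valuation ℚ z₀ ≤ 1 := by
    rw [← hv]
    have e : algebraMap ℚ M z₀ = z - (z - algebraMap ℚ M z₀) := by ring
    rw [e]
    exact (Valuation.map_sub _ _ _).trans (max_le hz1 hz₀.le)
  obtain ⟨z₁, hz₁⟩ := int_approx v hz0
  refine ⟨z₁, ?_⟩
  rw [RingHom.comp_apply, ← sub_eq_zero, ← map_sub, Ideal.Quotient.eq_zero_iff_mem,
    ← HeightOneSpectrum.valuation_lt_one_iff_mem (K := M)]
  have e : algebraMap (𝓞 M) M (Int.castRingHom (𝓞 M) z₁ - y) =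
      - ((z - algebraMap ℚ M z₀) + algebraMap ℚ M (z₀ - (z₁ : ℚ))) := by
    rw [map_sub, map_sub, eq_intCast, map_intCast, map_intCast]
    ring
  change w.valuation M (algebraMap (𝓞 M) M (Int.castRingHom (𝓞 M) z₁ - y)) < 1
  rw [e, Valuation.map_neg]
  refine lt_of_le_of_lt (Valuation.map_add _ _ _) (max_lt hz₀ ?_)
  rw [hv]
  exact hz₁

/-- Irreducibility modulo `w`. -/
theorem irr_top (hUR : S_UR) (hSPD : S_SPD) {γ : M} {m : ℤ[X]} {δ : ℕ}
    (hG : Gen ℚ γ m δ) {q : ℕ} (hq : q.Prime) (hsp : SplitMod q m)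
    (w : HeightOneSpectrum (𝓞 M)) (h1 : Ov q w) (hδ : ¬ Ov δ w) {h : ℤ[X]}
    (hirr : Irreducible (rd q h)) :
    Irreducible ((h.map (Int.castRingHom (𝓞 M))).map (Ideal.Quotient.mk w.asIdeal)) := by
  have hs := surj_top hUR hSPD hG hq hsp w h1 hδ
  have hker : Ideal.span {(q : ℤ)} = RingHom.ker ((Ideal.Quotient.mk w.asIdeal).comp
      (Int.castRingHom (𝓞 M))) := by
    haveI : (Ideal.span {(q : ℤ)}).IsMaximal :=
      PrincipalIdealRing.isMaximal_of_irreducible (Nat.prime_iff_prime_int.1 hq).irreducible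
    refine Ideal.IsMaximal.eq_of_le this ?_ ?_
    · haveI := Ideal.Quotient.nontrivial_iff.2 w.isPrime.ne_top
      exact RingHom.ker_ne_top _
    · rw [Ideal.span_le, Set.singleton_subset_iff, SetLike.mem_coe, RingHom.mem_ker,
        RingHom.comp_apply, Ideal.Quotient.eq_zero_iff_mem]
      rw [eq_intCast, Int.cast_natCast]
      exact h1
  let φ : ZMod q ≃+* (𝓞 M ⧸ w.asIdeal) :=
    (Int.quotientSpanNatEquivZMod q).symm.trans
      ((Ideal.quotEquivOfEq hker).trans (RingHom.quotientKerEquivOfSurjective hs))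
  have e : (h.map (Int.castRingHom (𝓞 M))).map (Ideal.Quotient.mk w.asIdeal) =
      Polynomial.mapEquiv φ (rd q h) := by
    rw [Polynomial.mapEquiv_apply, Polynomial.map_map, rd, Polynomial.map_map]
    congr 1
    exact RingHom.ext_int _ _
  rw [e]
  exact (MulEquiv.irreducible_iff (Polynomial.mapEquiv φ)).2 hirr

theorem not_ov_delta' {S T : Finset ℕ} {δ : ℕ} (hδ0 : δ ≠ 0)
    (hδ : ∀ p : ℕ, p.Prime → p ∣ δ → p ∈ T) (hS : ∀ q ∈ S, q.Prime)
    (hT : ∀ p ∈ T, p.Prime) (hdis : Disjoint S T) {q : ℕ} (hq : q ∈ S)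
    {𝔓 : HeightOneSpectrum (𝓞 L)} (h : Ov q 𝔓) : ¬ Ov δ 𝔓 := by
  intro h'
  obtain ⟨p, hp, hpd, hp'⟩ := ov_delta hδ0 h'
  have : q = p := below_unique (hS q hq) hp h hp'
  exact Finset.disjoint_left.1 hdis hq (this ▸ hδ p hp hpd)

/-- The prime below a prime over `q` at which `θ` is a unit. -/
theorem q_top (hEXQ : S_EXQ) (hCSQ : S_CSQ) (hUR : S_UR) {g W : ℕ} {f : ℤ[X]} {θ : L}
    {S : Finset ℕ} {s : ℕ → ℤ[X]} (hg : 1 ≤ g) (hc : IsGen g f θ)
    (hsq : Squarefree (dsc g f)) (hS : GoodS g W S s) {γ : Ω} {m : ℤ[X]} {δ : ℕ}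
    (hG : Gen L γ m δ) {q : ℕ} (hq : q ∈ S) (hcon : Cg q f (X * s q))
    (𝔓 : HeightOneSpectrum (𝓞 Ω)) (h1 : Ov q 𝔓)
    (hδ : ¬ Ov δ 𝔓) (h2 : 𝔓.valuation Ω (algebraMap L Ω θ) = 1) :
    𝔓.valuation Ω (q : Ω) = WithZero.exp (-1 : ℤ) ∧
    (∀ c : ℤ, ¬ (q : ℤ) ∣ c → Sq1 𝔓 (c : Ω)) := by
  obtain ⟨𝔭, hv⟩ := (hUR L Ω γ m δ hG).1 𝔓 hδ
  have h1' : Ov q 𝔭 := (ov_down hv q).1 h1
  have h2' : 𝔭.valuation L θ = 1 := by rw [← hv]; exact h2
  obtain ⟨𝔓₁, 𝔮, a1, a2, a3, a4, a5, a6, a7⟩ := hEXQ g W L f θ S s hg hc hsq hS q hq hcon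
  have h3 := (hCSQ g W L f θ S s hg hc hsq hS q hq hcon 𝔭 h1' h2').1
  refine ⟨?_, fun c hcq => ?_⟩
  · rw [← map_natCast (algebraMap L Ω) q, hv]
    rcases a7 𝔭 h1' with rfl | rfl
    · exact absurd h2' a3.ne
    · exact a6
  · obtain ⟨z, hz⟩ := h3 c hcq
    refine ⟨algebraMap L Ω z, ?_⟩
    rw [← map_intCast (algebraMap L Ω) c, ← map_pow, ← map_sub, hv, hv]
    exact hz

end top

end Pool.Agent.N874.QM
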