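import Pool.Agent.N874.QM.Top

/-!
# The conditions for elements which are locally in the image, over the extension, continued

Project QM (helper874).
-/

set_option autoImplicit false
set_option linter.all false

open Polynomial IsDedekindDomain NumberField
open Pool.Agent.N783.PQ
open Pool.Agent.N874.PP (Ev Sq1 U0)
open Pool.Agent.N874.PM (Lies ev_down sq_down ev_sq ev_mul)
open Pool.Agent.N874.JM (LocF)
open Pool.Agent.N891.PQ (exists_below not_ev_exp locIm_one ov_scale sq_two)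
open scoped Classical IntermediateField

namespace Pool.Agent.N874.QM

theorem val_lt_dvd {L : Type} [Field L] [NumberField L] {q : ℕ} {𝔓 : HeightOneSpectrum (𝓞 L)}
    (h : Ov q 𝔓) {c : ℤ} (hd : (q : ℤ) ∣ c) : 𝔓.valuation L (c : L) < 1 := by
  obtain ⟨d, rfl⟩ := hd
  rw [Int.cast_mul, map_mul, Int.cast_natCast]
  refine lt_of_le_of_lt (mul_le_mul' le_rfl (val_le_int d 𝔓)) ?_
  rw [mul_one]
  exact (ov_val q 𝔓).1 h

section top

variable {L M Ω : Type} [Field L] [NumberField L] [Field M] [NumberField M]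
  [Field Ω] [NumberField Ω] [Algebra L Ω] [Algebra M Ω]

theorem cnd_top (hEXQ : S_EXQ) (hCSQ : S_CSQ) (hUR : S_UR) (hSPD : S_SPD) (hLIE : S_LIE)
    (hLOC1 : Pool.Agent.N874.JM.S_LOC1) (hLOC2 : Pool.Agent.N874.JM.S_LOC2) {g W : ℕ}
    {f : ℤ[X]} {θ : L} {S J T : Finset ℕ} {s : ℕ → ℤ[X]}
    (hg : 1 ≤ g) (hc : IsGen g f θ) (hsq : Squarefree (dsc g f)) (hS : GoodS g W S s)
    (hcon : ∀ q ∈ S, Cg q f (X * s q)) {γ : M} {m : ℤ[X]} {δ : ℕ} (hG : Gen ℚ γ m δ)
    (hG' : Gen L (algebraMap M Ω γ) m δ) (hsp : ∀ q ∈ S, SplitMod q m)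
    (hT : ∀ p ∈ T, p.Prime) (h2T : 2 ∈ T)
    (hδ : ∀ p : ℕ, p.Prime → p ∣ δ → p ∈ T) (hdis : Disjoint S T)
    (hJ : J ⊆ S) {h : M[X]}
    (hloc : ∀ w : HeightOneSpectrum (𝓞 M), LocF (w.adicCompletion M)
      ((f.scaleRoots ((∏ q ∈ J, q : ℕ) : ℤ)).map (algebraMap ℤ M)) h)
    (h0 : aeval (((∏ q ∈ J, q : ℕ) : Ω) * algebraMap L Ω θ) h ≠ 0) :
    Cnd J T (algebraMap L Ω θ)
      (algebraMap L Ω (aeval θ (derivative f)))
      (aeval (((∏ q ∈ J, q : ℕ) : Ω) * algebraMap L Ω θ) h) := by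
  have hS' : ∀ q ∈ S, q.Prime := fun q hq => (hS q hq).1
  have hmon : (f.map (algebraMap ℤ M)).Monic := hc.mon.map _
  have hdeg : (f.map (algebraMap ℤ M)).natDegree = 2 * g + 1 := by
    rw [hc.mon.natDegree_map, hc.deg]
  have hsc : ∀ D : ℕ, (f.scaleRoots (D : ℤ)).map (algebraMap ℤ M) =
      (f.map (algebraMap ℤ M)).scaleRoots (D : M) := by
    intro D
    rw [map_scaleRoots]
    · rw [eq_intCast, Int.cast_natCast]
    · rw [hc.mon.leadingCoeff, map_one]
      exact one_ne_zero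
  have hroot : aeval (algebraMap L Ω θ) (f.map (algebraMap ℤ M)) = 0 := by
    rw [aeval_map_algebraMap, aeval_algebraMap_apply, hc.root, map_zero]
  have hder : aeval (algebraMap L Ω θ) (derivative (f.map (algebraMap ℤ M))) =
      algebraMap L Ω (aeval θ (derivative f)) := by
    rw [derivative_map, aeval_map_algebraMap, aeval_algebraMap_apply]
  refine ⟨fun 𝔓 h1 h2 h3 => ?_, fun q hq 𝔓 h𝔓 h3 => ?_⟩
  · obtain ⟨w, hw, hO⟩ := hLIE M Ω 𝔓
    have v2 : w.valuation M 2 = 1 := by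
      have := val_eq_of 2 w fun h => h1 2 h2T ((hO 2).1 h)
      rwa [Nat.cast_ofNat] at this
    have hD : w.valuation M ((∏ q ∈ J, q : ℕ) : M) = 1 := by
      refine val_eq_of _ w fun h => ?_
      obtain ⟨q, hq, h'⟩ := ov_prod h
      exact h2 q hq ((hO q).1 h')
    have hl := hloc w
    rw [hsc] at hl
    have e3 : algebraMap M Ω ((∏ q ∈ J, q : ℕ) : M) = ((∏ q ∈ J, q : ℕ) : Ω) :=
      map_natCast (algebraMap M Ω) _
    have h4 := hLOC1 M Ω (𝓞 M) (𝓞 Ω) w 𝔓 hw v2 (f.map (algebraMap ℤ M)) h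
      ((∏ q ∈ J, q : ℕ) : M) (algebraMap L Ω θ) hmon (by rw [hdeg]; exact odd_two_mul_add_one g)
      (fun i => by rw [coeff_map, eq_intCast]; exact val_le_int _ w) hroot
      (by rw [hder]; exact h3) hD hl (by rw [e3]; exact h0)
    rw [e3] at h4
    exact h4
  · have hqS := hJ hq
    have hqp := hS' q hqS
    obtain ⟨w, hw, hO⟩ := hLIE M Ω 𝔓
    have hqw : Ov q w := (hO q).2 h𝔓
    have v2 : w.valuation M 2 = 1 := by
      have := val_eq_of 2 w fun h => by
        have h' := below_unique hqp Nat.prime_two hqw h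
        rw [h'] at hqS
        exact Finset.disjoint_left.1 hdis hqS h2T
      rwa [Nat.cast_ofNat] at this
    have hδ0 := hG.ne
    have hδw : ¬ Ov δ w := not_ov_delta' hδ0 hδ hS' hT hdis hqS hqw
    have hδ𝔓 : ¬ Ov δ 𝔓 := fun h => hδw ((hO δ).2 h)
    haveI : Finite (𝓞 M ⧸ w.asIdeal) := Ideal.finiteQuotientOfFreeOfNeBot _ w.ne_bot
    haveI : Finite (𝓞 Ω ⧸ 𝔓.asIdeal) := Ideal.finiteQuotientOfFreeOfNeBot _ 𝔓.ne_bot
    obtain ⟨h5, h6⟩ := q_top hEXQ hCSQ hUR hg hc hsq hS hG' hqS (hcon q hqS) 𝔓 h𝔓 hδ𝔓 h3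
    have hprod : (∏ p ∈ J, p) = q * ∏ p ∈ J.erase q, p := (Finset.mul_prod_erase J id hq).symm
    have hnd : ¬ q ∣ ∏ p ∈ J.erase q, p := by
      intro hd
      obtain ⟨p, hp, hqp'⟩ := (hqp.prime.dvd_finset_prod_iff _).1 hd
      have hp' := Finset.mem_erase.1 hp
      exact hp'.1 (((Nat.prime_dvd_prime_iff_eq hqp (hS' p (hJ hp'.2))).1 hqp').symm)
    have hD' : w.valuation M ((∏ p ∈ J.erase q, p : ℕ) : M) = 1 := by
      refine val_eq_of _ w fun h => ?_
      obtain ⟨p, hp, hp'⟩ := ov_prod h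
      have hpS := hJ (Finset.mem_of_mem_erase hp)
      exact Finset.ne_of_mem_erase hp (below_unique (hS' p hpS) hqp hp' hqw)
    have hl := hloc w
    rw [hsc, hprod, Nat.cast_mul] at hl
    have e3 : algebraMap M Ω ((q : M) * ((∏ p ∈ J.erase q, p : ℕ) : M)) =
        ((∏ p ∈ J, p : ℕ) : Ω) := by
      rw [hprod, Nat.cast_mul, map_mul, map_natCast, map_natCast]
    have hsm : (s q).Monic := (hS q hqS).2.2.2.2.1
    have hsd : (s q).natDegree = 2 * g := (hS q hqS).2.2.2.2.2.1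
    have hnd' : ¬ (q : ℤ) ∣ ((∏ p ∈ J.erase q, p : ℕ) : ℤ) := fun h =>
      hnd (Int.natCast_dvd_natCast.1 h)
    have h7 := hLOC2 M Ω (𝓞 M) (𝓞 Ω) w 𝔓 hw v2 g (f.map (algebraMap ℤ M)) h
      ((s q).map (Int.castRingHom (𝓞 M))) (q : M)
      ((∏ p ∈ J.erase q, p : ℕ) : M) (algebraMap L Ω θ) hg hmon hdeg
      (hsm.map _) (by rw [hsm.natDegree_map, hsd])
      (irr_top hUR hSPD hG hqp (hsp q hqS) w hqw hδw (hS q hqS).2.2.2.2.2.2.2)
      (fun j => by
        have e : (f.map (algebraMap ℤ M)).coeff j - algebraMap (𝓞 M) M ((X * (s q).map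
            (Int.castRingHom (𝓞 M))).coeff j) = ((f.coeff j - (X * s q).coeff j : ℤ) : M) := by
          have e1 : (X * (s q).map (Int.castRingHom (𝓞 M))) =
              (X * s q).map (Int.castRingHom (𝓞 M)) := by
            rw [Polynomial.map_mul, map_X]
          rw [e1, coeff_map, coeff_map, eq_intCast, eq_intCast, map_intCast]
          push_cast
          ring
        rw [e]
        exact val_lt_dvd hqw (hcon q hqS j)) hroot h3
      (by rw [map_natCast]; exact h5) hD'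
      (by
        have := h6 (-1) (fun h => by
          have h8 : (q : ℤ) ∣ 1 := (dvd_neg.1 h)
          have h9 : q = 1 := by
            have := Int.natCast_dvd_natCast.1 (by simpa using h8 : (q : ℤ) ∣ ((1 : ℕ) : ℤ))
            exact Nat.dvd_one.1 this
          exact hqp.one_lt.ne' h9)
        rwa [Int.cast_neg, Int.cast_one] at this)
      (by
        rw [map_natCast]
        have := h6 _ hnd'
        rwa [Int.cast_natCast] at this) hl
      (by rw [e3]; exact h0)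
    rw [e3, map_natCast] at h7
    exact h7

end top

/-! ### The conditions at `2` and at infinity -/

theorem comp_locIm' {F : Type} [Field F] [CharZero F] {g : ℕ} {f : ℤ[X]} (hm : f.Monic)
    (hd : f.natDegree = 2 * g + 1) (hSQT : S_SQT) {D : ℕ} (hD0 : D ≠ 0) (δ : F)
    (hδ : δ ^ 2 = (D : F)) (h : F[X]) (H : LocIm F (ov F (f.scaleRoots (D : ℤ))) h) :
    LocIm F (ov F f) (h.comp (C (D : F) * X)) := by
  have hδ0 : δ ≠ 0 := by
    intro h0
    rw [h0, zero_pow two_ne_zero] at hδ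
    exact hD0 (by exact_mod_cast hδ.symm)
  have h1 := hSQT F g (ov F f) h δ (hm.map _) (by
    unfold ov
    rw [hm.natDegree_map, hd]) hδ0
  rw [hδ] at h1
  rw [ov_scale F hm] at H
  exact h1 (by simpa using H)

section arct

variable {M Ω : Type} [Field M] [NumberField M] [Field Ω] [NumberField Ω] [Algebra M Ω]

theorem arc_top (hEMB : S_EMB) (hSQT : S_SQT) {g : ℕ} {f : ℤ[X]} {θ : Ω} (hm : f.Monic)
    (hd : f.natDegree = 2 * g + 1) {D : ℕ} (hD : D % 8 = 1) {h : M[X]}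
    (hloc : ∀ w : HeightOneSpectrum (𝓞 M), LocF (w.adicCompletion M)
      ((f.scaleRoots (D : ℤ)).map (algebraMap ℤ M)) h)
    (hr : ∀ ρ : M →+* ℝ, LocIm ℝ (((f.scaleRoots (D : ℤ)).map (algebraMap ℤ M)).map ρ) (h.map ρ)) :
    Arc M f θ (aeval ((D : Ω) * θ) h) := by
  have hD0 : D ≠ 0 := by
    rintro rfl
    simp at hD
  have hcomp : ∀ (F : Type) [Field F] (σ : M →+* F),
      (h.comp (C (D : M) * X)).map σ = (h.map σ).comp (C (D : F) * X) := by
    intro F _ σ
    rw [Polynomial.map_comp, Polynomial.map_mul, map_C, map_X, map_natCast]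
  have hov : ∀ (F : Type) [Field F] (σ : M →+* F),
      ((f.scaleRoots (D : ℤ)).map (algebraMap ℤ M)).map σ = ov F (f.scaleRoots (D : ℤ)) := by
    intro F _ σ
    rw [Polynomial.map_map]
    congr 1
    exact RingHom.ext_int _ _
  refine ⟨h.comp (C (D : M) * X), ?_, fun σ => ?_, fun ρ => ?_⟩
  · rw [aeval_comp]
    congr 1
    rw [map_mul, aeval_C, aeval_X, map_natCast]
  · obtain ⟨w, j, hO, hj⟩ := hEMB M 2 σ
    have h1 : LocIm (w.adicCompletion M)
        (((f.scaleRoots (D : ℤ)).map (algebraMap ℤ M)).map (algebraMap M (w.adicCompletion M)))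
        (h.map (algebraMap M (w.adicCompletion M))) := hloc w
    have h2 := locIm_map j h1
    have e : j.comp (algebraMap M (w.adicCompletion M)) = σ := RingHom.ext hj
    rw [Polynomial.map_map, Polynomial.map_map (algebraMap M (w.adicCompletion M)) j h, e, hov] at h2
    rw [hcomp]
    obtain ⟨δ, hδ⟩ := sq_two D hD
    exact comp_locIm' hm hd hSQT hD0 δ hδ _ h2
  · have h2 := hr ρ
    rw [hov] at h2
    rw [hcomp]
    refine comp_locIm' hm hd hSQT hD0 (Real.sqrt D) ?_ _ h2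
    exact Real.sq_sqrt (Nat.cast_nonneg D)

end arct

end Pool.Agent.N874.QM
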